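import Mathlib

/-! Hamiltonian systems composed of systems with one degree of freedom: definitions. -/

open scoped Topology ContDiff Manifold

noncomputable section

namespace Pool.Agent.X167.W

universe u

/-- A manifold `M` (modelled on the finite-dimensional space `E`, Hausdorff, `σ`-compact, without
boundary) together with a field `form` of bilinear forms on its tangent spaces. Mathlib's tangent space
at a point of `M` is the vector space `E`. -/
structure Sys where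
  E : Type u
  [nacg : NormedAddCommGroup E]
  [space : NormedSpace ℝ E]
  [fin : FiniteDimensional ℝ E]
  M : Type u
  [top : TopologicalSpace M]
  [charted : ChartedSpace E M]
  [mfd : IsManifold 𝓘(ℝ, E) ∞ M]
  [t2 : T2Space M]
  [sigma : SigmaCompactSpace M]
  form : M → E →L[ℝ] E →L[ℝ] ℝ

attribute [instance] Sys.nacg Sys.space Sys.fin Sys.top Sys.charted Sys.mfd Sys.t2 Sys.sigma

/-- the value `ω_x (u, v)` of the form -/
abbrev Sys.om (S : Sys.{u}) (x : S.M) (u v : S.E) : ℝ := S.form x u v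

/-- the vector field `U` is smooth at `x` -/
abbrev Sys.SmoothField (S : Sys.{u}) (U : (y : S.M) → TangentSpace 𝓘(ℝ, S.E) y) (x : S.M) : Prop :=
  ContMDiffAt 𝓘(ℝ, S.E) 𝓘(ℝ, S.E).tangent ∞
    (fun y => (⟨y, U y⟩ : TangentBundle 𝓘(ℝ, S.E) S.M)) x

/-- the function `f` is smooth at `x` -/
abbrev Sys.SmoothFn (S : Sys.{u}) (f : S.M → ℝ) (x : S.M) : Prop :=
  ContMDiffAt 𝓘(ℝ, S.E) 𝓘(ℝ, ℝ) ∞ f x

/-- the form is smooth: its value on two smooth vector fields is a smooth function -/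
abbrev Sys.SmoothForm (S : Sys.{u}) : Prop :=
  ∀ (x : S.M) (U V : (y : S.M) → TangentSpace 𝓘(ℝ, S.E) y), S.SmoothField U x →
    S.SmoothField V x → S.SmoothFn (fun y => S.om y (U y) (V y)) x

/-- `S` is a symplectic surface: `M` has dimension two and `form` is smooth, alternating and
nondegenerate. -/
structure Sys.IsSurface (S : Sys.{u}) : Prop where
  dim : Module.finrank ℝ S.E = 2
  smooth : S.SmoothForm
  alt : ∀ (x : S.M) (u : S.E), S.om x u u = 0
  nondeg : ∀ (x : S.M) (u : S.E), (∀ v, S.om x u v = 0) → u = 0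

/-- smooth functions on `M` -/
def Sys.Smooth (S : Sys.{u}) (H : S.M → ℝ) : Prop :=
  ContMDiff 𝓘(ℝ, S.E) 𝓘(ℝ, ℝ) ∞ H

/-- smooth functions on `M × ℝ` -/
abbrev Sys.Smooth2 (S : Sys.{u}) (F : S.M × ℝ → ℝ) : Prop :=
  ContMDiff (𝓘(ℝ, S.E).prod 𝓘(ℝ, ℝ)) 𝓘(ℝ, ℝ) ∞ F

/-- the differential of `H` at `x` -/
def Sys.d (S : Sys.{u}) (H : S.M → ℝ) (x : S.M) : S.E →L[ℝ] ℝ :=
  mfderiv 𝓘(ℝ, S.E) 𝓘(ℝ, ℝ) H x

/-- the value `dH_x (v)` -/
abbrev Sys.D (S : Sys.{u}) (H : S.M → ℝ) (x : S.M) (v : S.E) : ℝ := S.d H x v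

/-- `γ` has velocity `X` at time `t` -/
abbrev Sys.Velocity (S : Sys.{u}) (γ : ℝ → S.M) (t : ℝ) (X : S.E) : Prop :=
  HasMFDerivAt 𝓘(ℝ, ℝ) 𝓘(ℝ, S.E) γ t ((1 : ℝ →L[ℝ] ℝ).smulRight X)

/-- `γ` is a periodic orbit, of period `T`, of the Hamiltonian vector field `X` of `H`, which is
defined by `ω(X, ·) = - dH`. -/
structure Sys.IsPeriodic (S : Sys.{u}) (H : S.M → ℝ) (γ : ℝ → S.M) (T : ℝ) : Prop where
  pos : 0 < T
  period : ∀ t, γ (t + T) = γ t
  orbit : ∀ t, ∃ X : S.E, S.Velocity γ t X ∧ ∀ v, S.om (γ t) X v = - S.D H (γ t) v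

/-- every non-empty compact regular level set of `H` carries a periodic orbit -/
def Sys.Closes (S : Sys.{u}) (H : S.M → ℝ) : Prop :=
  ∀ c : ℝ, (∃ x, H x = c) → IsCompact {x | H x = c} → (∀ x, H x = c → S.d H x ≠ 0) →
    ∃ (γ : ℝ → S.M) (T : ℝ), S.IsPeriodic H γ T ∧ ∀ t, H (γ t) = c

/-- the sum of two bilinear forms -/
abbrev addBilin {F : Type*} [NormedAddCommGroup F] [NormedSpace ℝ F] (A B : F →L[ℝ] F →L[ℝ] ℝ) :
    F →L[ℝ] F →L[ℝ] ℝ :=
  A + B

/-- a bilinear form pulled back by a linear map -/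
abbrev pullBilin {E F : Type*} [NormedAddCommGroup E] [NormedSpace ℝ E] [NormedAddCommGroup F]
    [NormedSpace ℝ F] (B : E →L[ℝ] E →L[ℝ] ℝ) (l : F →L[ℝ] E) : F →L[ℝ] F →L[ℝ] ℝ :=
  ContinuousLinearMap.bilinearComp B l l

/-- the form `ω₁ ⊕ ω₂` -/
abbrev sumBilin {E F : Type*} [NormedAddCommGroup E] [NormedSpace ℝ E] [NormedAddCommGroup F]
    [NormedSpace ℝ F] (A : E →L[ℝ] E →L[ℝ] ℝ) (B : F →L[ℝ] F →L[ℝ] ℝ) :
    (E × F) →L[ℝ] (E × F) →L[ℝ] ℝ :=
  addBilin (pullBilin A (ContinuousLinearMap.fst ℝ E F))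
    (pullBilin B (ContinuousLinearMap.snd ℝ E F))

/-- the product atlas -/
abbrev prodCharted (S T : Sys.{u}) : ChartedSpace (S.E × T.E) (S.M × T.M) :=
  (inferInstance : ChartedSpace (ModelProd S.E T.E) (S.M × T.M))

/-- the product of two systems, with the form `ω₁ ⊕ ω₂` -/
def Sys.prod (S T : Sys.{u}) : Sys.{u} where
  E := S.E × T.E
  M := S.M × T.M
  charted := prodCharted S T
  mfd := (modelWithCornersSelf_prod (𝕜 := ℝ) (E := S.E) (F := T.E)) ▸
    (inferInstance : IsManifold (𝓘(ℝ, S.E).prod 𝓘(ℝ, T.E)) ∞ (S.M × T.M))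
  form := fun p => sumBilin (S.form p.1) (T.form p.2)

/-- Hamiltonian systems composed of systems with one degree of freedom. -/
inductive Separable : (S : Sys.{u}) → (S.M → ℝ) → Prop
  /-- a smooth function on a symplectic surface -/
  | surface (S : Sys.{u}) (hS : S.IsSurface) (H : S.M → ℝ) (hH : S.Smooth H) : Separable S H
  /-- a system all of whose compact regular level sets carry periodic orbits -/
  | known (S : Sys.{u}) (H : S.M → ℝ) (hH : S.Smooth H) (h : S.Closes H) : Separable S H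
  /-- `H (x, y) = F (x, G y)` on a product -/
  | comp (S T : Sys.{u}) (F : S.M × ℝ → ℝ) (hF : S.Smooth2 F)
      (G : T.M → ℝ) (hG : T.Smooth G) (h1 : ∀ g : ℝ, Separable S (fun x => F (x, g)))
      (h2 : Separable T G) : Separable (S.prod T) (fun p => F (p.1, G p.2))

end Pool.Agent.X167.W
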