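import Mathlib
import Pool.Agent.X167.W.Sys

/-! Compositions of Hamiltonian systems: the differential of `F (x, G y)`. -/

open scoped Topology ContDiff Manifold
open Set

noncomputable section

namespace Pool.Agent.X167.W

universe u

variable (S T : Sys.{u})

/-- differentiability of a smooth function -/
lemma Sys.hasD {S : Sys.{u}} {H : S.M → ℝ} (hH : S.Smooth H) (x : S.M) :
    HasMFDerivAt 𝓘(ℝ, S.E) 𝓘(ℝ, ℝ) H x (S.d H x) :=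
  (ContMDiff.mdifferentiableAt hH (by simp)).hasMFDerivAt

/-- the differential of `F` on `M × ℝ` -/
def DF {S : Sys.{u}} (F : S.M × ℝ → ℝ) (p : S.M × ℝ) : S.E × ℝ →L[ℝ] ℝ :=
  mfderiv (𝓘(ℝ, S.E).prod 𝓘(ℝ, ℝ)) 𝓘(ℝ, ℝ) F p

lemma hasDF {S : Sys.{u}} {F : S.M × ℝ → ℝ}
    (hF : ContMDiff (𝓘(ℝ, S.E).prod 𝓘(ℝ, ℝ)) 𝓘(ℝ, ℝ) ∞ F) (p : S.M × ℝ) :
    HasMFDerivAt (𝓘(ℝ, S.E).prod 𝓘(ℝ, ℝ)) 𝓘(ℝ, ℝ) F p (DF F p) :=
  (hF.mdifferentiableAt (by simp)).hasMFDerivAt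

lemma smooth_slice {S : Sys.{u}} {F : S.M × ℝ → ℝ}
    (hF : ContMDiff (𝓘(ℝ, S.E).prod 𝓘(ℝ, ℝ)) 𝓘(ℝ, ℝ) ∞ F) (g : ℝ) :
    S.Smooth (fun x => F (x, g)) :=
  hF.comp (contMDiff_id.prodMk contMDiff_const)

lemma d_slice {S : Sys.{u}} {F : S.M × ℝ → ℝ}
    (hF : ContMDiff (𝓘(ℝ, S.E).prod 𝓘(ℝ, ℝ)) 𝓘(ℝ, ℝ) ∞ F) (g : ℝ) (x : S.M) (u : S.E) :
    S.d (fun x => F (x, g)) x u = DF F (x, g) (u, 0) := by
  have h1 : HasMFDerivAt 𝓘(ℝ, S.E) (𝓘(ℝ, S.E).prod 𝓘(ℝ, ℝ)) (fun x : S.M => (x, g)) x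
      ((ContinuousLinearMap.id ℝ S.E).prod (0 : S.E →L[ℝ] ℝ)) :=
    (hasMFDerivAt_id x).prodMk (hasMFDerivAt_const g x)
  have h2 := HasMFDerivAt.comp x (hasDF hF (x, g)) h1
  have h3 := h2.mfderiv
  have h4 := DFunLike.congr_fun h3 u
  exact h4

/-- **The differential of `F (x, G y)`.** -/
lemma d_comp {S T : Sys.{u}} {F : S.M × ℝ → ℝ}
    (hF : ContMDiff (𝓘(ℝ, S.E).prod 𝓘(ℝ, ℝ)) 𝓘(ℝ, ℝ) ∞ F) {G : T.M → ℝ} (hG : T.Smooth G)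
    (x : S.M) (y : T.M) (u : S.E) (v : T.E) :
    (S.prod T).d (fun p => F (p.1, G p.2)) (x, y) (u, v) =
      S.d (fun x => F (x, G y)) x u + DF F (x, G y) (0, 1) * T.d G y v := by
  have h1 : HasMFDerivAt (𝓘(ℝ, S.E).prod 𝓘(ℝ, T.E)) (𝓘(ℝ, S.E).prod 𝓘(ℝ, ℝ))
      (fun p : S.M × T.M => (p.1, G p.2)) (x, y)
      ((ContinuousLinearMap.fst ℝ S.E T.E).prod
        ((T.d G y).comp (ContinuousLinearMap.snd ℝ S.E T.E))) :=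
    (hasMFDerivAt_fst (x, y)).prodMk (HasMFDerivAt.comp (x, y) (Sys.hasD hG y)
      (hasMFDerivAt_snd (x, y)))
  have h2 := HasMFDerivAt.comp (x, y) (hasDF hF (x, G y)) h1
  have h3 := h2.mfderiv
  have h4 := DFunLike.congr_fun h3 (u, v)
  have h5 : (S.prod T).d (fun p => F (p.1, G p.2)) (x, y) (u, v) =
      mfderiv (𝓘(ℝ, S.E).prod 𝓘(ℝ, T.E)) 𝓘(ℝ, ℝ) (F ∘ fun p : S.M × T.M => (p.1, G p.2)) (x, y)
        (u, v) := rfl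
  rw [h5]
  refine Eq.trans h4 ?_
  show DF F (x, G y) (u, T.d G y v) = _
  rw [d_slice hF]
  have h6 : (u, T.d G y v) = ((u, 0) : S.E × ℝ) + (T.d G y v) • ((0, 1) : S.E × ℝ) := by
    ext <;> simp
  rw [h6, map_add, map_smul, smul_eq_mul, mul_comm]

end Pool.Agent.X167.W
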