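import Mathlib
import Pool.Agent.X167.W.Comp

/-! Compositions of Hamiltonian systems: periodic orbits on compact regular level sets. -/

open scoped Topology ContDiff Manifold
open Set Filter

noncomputable section

namespace Pool.Agent.X167.W

universe u

lemma Sys.d_eq_zero_of_isLocalExtr {S : Sys.{u}} {H : S.M → ℝ} {x : S.M}
    (h : IsLocalExtr H x) : S.d H x = 0 := by
  by_cases hd : MDifferentiableAt 𝓘(ℝ, S.E) 𝓘(ℝ, ℝ) H x
  · have e0 : (extChartAt 𝓘(ℝ, S.E) x).symm (extChartAt 𝓘(ℝ, S.E) x x) = x :=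
      extChartAt_to_inv x
    have ht : Tendsto (extChartAt 𝓘(ℝ, S.E) x).symm (𝓝 (extChartAt 𝓘(ℝ, S.E) x x)) (𝓝 x) := by
      have := continuousAt_extChartAt_symm (I := 𝓘(ℝ, S.E)) x
      rw [ContinuousAt, e0] at this
      exact this
    have h1 : IsLocalExtr (writtenInExtChartAt 𝓘(ℝ, S.E) 𝓘(ℝ, ℝ) x H)
        (extChartAt 𝓘(ℝ, S.E) x x) := by
      have e : writtenInExtChartAt 𝓘(ℝ, S.E) 𝓘(ℝ, ℝ) x H (extChartAt 𝓘(ℝ, S.E) x x) = H x := by
        simp [writtenInExtChartAt]
      rcases h with h | h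
      · left
        filter_upwards [ht.eventually h] with y hy
        rw [e]
        simpa [writtenInExtChartAt, chartAt_self_eq] using hy
      · right
        filter_upwards [ht.eventually h] with y hy
        rw [e]
        simpa [writtenInExtChartAt, chartAt_self_eq] using hy
    have h2 := h1.fderiv_eq_zero
    show mfderiv 𝓘(ℝ, S.E) 𝓘(ℝ, ℝ) H x = 0
    rw [hd.mfderiv]
    have e : range (𝓘(ℝ, S.E) : S.E → S.E) = univ := by simp
    rw [e, fderivWithin_univ, h2]
    rfl
  · exact mfderiv_zero_of_not_mdifferentiableAt hd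

/-- Where the differential of `H` does not vanish, larger values are taken nearby. -/
lemma Sys.exists_gt {S : Sys.{u}} {H : S.M → ℝ} {x : S.M} (h : S.d H x ≠ 0) {U : Set S.M}
    (hU : U ∈ 𝓝 x) : ∃ y ∈ U, H x < H y := by
  by_contra hno
  push Not at hno
  exact h (Sys.d_eq_zero_of_isLocalExtr (Or.inr (Filter.mem_of_superset hU hno)))

lemma Sys.exists_lt {S : Sys.{u}} {H : S.M → ℝ} {x : S.M} (h : S.d H x ≠ 0) {U : Set S.M}
    (hU : U ∈ 𝓝 x) : ∃ y ∈ U, H y < H x := by
  by_contra hno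
  push Not at hno
  exact h (Sys.d_eq_zero_of_isLocalExtr (Or.inl (Filter.mem_of_superset hU hno)))

lemma prod_form_apply (S T : Sys.{u}) (p : S.M × T.M) (a b : S.E × T.E) :
    (S.prod T).form p a b = S.form p.1 a.1 b.1 + T.form p.2 a.2 b.2 := rfl

/-- At a maximum of `G` on a level set of `F (x, G y)` the first variable is critical or the second
one is. -/
lemma critical_of_max {S T : Sys.{u}} {F : S.M × ℝ → ℝ}
    (hF : ContMDiff (𝓘(ℝ, S.E).prod 𝓘(ℝ, ℝ)) 𝓘(ℝ, ℝ) ∞ F) {G : T.M → ℝ} (hG : T.Smooth G)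
    {c : ℝ} {x : S.M} {y : T.M} (hxy : F (x, G y) = c)
    (hmax : ∀ (x' : S.M) (y' : T.M), F (x', G y') = c → G y' ≤ G y) (hy : T.d G y ≠ 0) :
    S.d (fun x => F (x, G y)) x = 0 := by
  by_contra hne
  have : LocallyConnectedSpace S.M := ChartedSpace.locallyConnectedSpace S.E S.M
  obtain ⟨U, ⟨hUo, hxU, hUc⟩, -⟩ := (LocallyConnectedSpace.open_connected_basis x).mem_iff.1
    (Filter.univ_mem : (univ : Set S.M) ∈ 𝓝 x)
  have hU : U ∈ 𝓝 x := hUo.mem_nhds hxU
  obtain ⟨a, haU, ha⟩ := Sys.exists_gt hne hU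
  obtain ⟨b, hbU, hb⟩ := Sys.exists_lt hne hU
  simp only [hxy] at ha hb
  have hFc : Continuous F := hF.continuous
  have hGc : Continuous G := ContMDiff.continuous hG
  have h1 : ∀ᶠ y' in 𝓝 y, c < F (a, G y') := by
    have : ContinuousAt (fun y' => F (a, G y')) y := by fun_prop
    exact this.eventually (lt_mem_nhds ha)
  have h2 : ∀ᶠ y' in 𝓝 y, F (b, G y') < c := by
    have : ContinuousAt (fun y' => F (b, G y')) y := by fun_prop
    exact this.eventually (gt_mem_nhds hb)
  obtain ⟨y', ⟨hy1, hy2⟩, hy3⟩ := Sys.exists_gt hy (h1.and h2)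
  have h3 : c ∈ (fun x' => F (x', G y')) '' U := by
    have hcont : ContinuousOn (fun x' => F (x', G y')) U := by fun_prop
    exact hUc.isPreconnected.intermediate_value hbU haU hcont ⟨hy2.le, hy1.le⟩
  obtain ⟨x', -, hx'⟩ := h3
  exact absurd (hmax x' y' hx') (not_le.2 hy3)

/-- **Composition of Hamiltonian systems.** -/
theorem closes_comp {S T : Sys.{u}} {F : S.M × ℝ → ℝ}
    (hF : ContMDiff (𝓘(ℝ, S.E).prod 𝓘(ℝ, ℝ)) 𝓘(ℝ, ℝ) ∞ F) {G : T.M → ℝ} (hG : T.Smooth G)
    (h1 : ∀ g : ℝ, S.Closes (fun x => F (x, g))) (h2 : T.Closes G) :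
    (S.prod T).Closes (fun p => F (p.1, G p.2)) := by
  intro c hne hcpt hreg
  have hFc : Continuous F := hF.continuous
  have hGc : Continuous G := ContMDiff.continuous hG
  let L0 : Set (S.M × T.M) := {p | F (p.1, G p.2) = c}
  have hL0 : IsCompact L0 := hcpt
  have hneL : L0.Nonempty := hne
  obtain ⟨⟨x, y⟩, hxy, hmax⟩ := hL0.exists_isMaxOn hneL
    (f := fun p : S.M × T.M => G p.2) (by fun_prop)
  have hxy' : F (x, G y) = c := hxy
  have hmax' : ∀ (x' : S.M) (y' : T.M), F (x', G y') = c → G y' ≤ G y :=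
    fun x' y' h => hmax (show (x', y') ∈ L0 from h)
  have hreg' : ∀ (x' : S.M) (y' : T.M), F (x', G y') = c → S.d (fun x => F (x, G y')) x' = 0 →
      DF F (x', G y') (0, 1) ≠ 0 ∧ T.d G y' ≠ 0 := by
    intro x' y' h h0
    have h3 := hreg (x', y') h
    constructor
    · intro h4
      apply h3
      ext ⟨a, b⟩
      rw [d_comp hF hG, h0, h4]
      simp
    · intro h4
      apply h3
      ext ⟨a, b⟩
      rw [d_comp hF hG, h0, h4]
      simp
  by_cases hy : T.d G y = 0
  · -- the second variable is at rest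
    have hc1 : IsCompact {x' | F (x', G y) = c} := by
      have h3 : {x' | F (x', G y) = c} = Prod.fst '' (L0 ∩ Prod.snd ⁻¹' {y}) := by
        ext x'
        constructor
        · intro h
          exact ⟨(x', y), ⟨h, rfl⟩, rfl⟩
        · rintro ⟨⟨x'', y''⟩, ⟨h, hy''⟩, rfl⟩
          have : y'' = y := hy''
          subst this
          exact h
      rw [h3]
      exact (hL0.inter_right (isClosed_singleton.preimage continuous_snd)).image continuous_fst
    obtain ⟨γ, T0, hγ, hval⟩ := h1 (G y) c ⟨x, hxy'⟩ hc1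
      (fun x' hx' h0 => (hreg' x' y hx' h0).2 hy)
    refine ⟨fun t => (γ t, y), T0, ⟨hγ.pos, fun t => ?_, fun t => ?_⟩, fun t => hval t⟩
    · show (γ (t + T0), y) = (γ t, y)
      rw [hγ.period]
    · obtain ⟨X, hX, hX'⟩ := hγ.orbit t
      refine ⟨(X, 0), ?_, ?_⟩
      · have h3 : HasMFDerivAt 𝓘(ℝ, ℝ) (𝓘(ℝ, S.E).prod 𝓘(ℝ, T.E)) (fun t => (γ t, y)) t
            (((1 : ℝ →L[ℝ] ℝ).smulRight X).prod (0 : ℝ →L[ℝ] T.E)) :=
          hX.prodMk (hasMFDerivAt_const y t)
        have h4 : (((1 : ℝ →L[ℝ] ℝ).smulRight X).prod (0 : ℝ →L[ℝ] T.E)) =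
            (1 : ℝ →L[ℝ] ℝ).smulRight ((X, 0) : S.E × T.E) := by
          ext <;> simp
        rw [h4] at h3
        exact h3
      · rintro ⟨a, b⟩
        show (S.prod T).form (γ t, y) (X, 0) (a, b) =
          - (S.prod T).d (fun p => F (p.1, G p.2)) (γ t, y) (a, b)
        rw [prod_form_apply, d_comp hF hG, hy]
        simp only [map_zero, ContinuousLinearMap.zero_apply, mul_zero, add_zero]
        exact hX' a
  · -- the first variable is at rest
    have hx0 := critical_of_max hF hG hxy' hmax' hy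
    obtain ⟨hκ, -⟩ := hreg' x y hxy' hx0
    set κ := DF F (x, G y) (0, 1) with hκdef
    have hc2 : IsCompact {y' | G y' = G y} := by
      have h3 : {y' | G y' = G y} = Prod.snd '' (L0 ∩ {p | p.1 = x ∧ G p.2 = G y}) := by
        ext y'
        constructor
        · intro h
          have h' : G y' = G y := h
          exact ⟨(x, y'), ⟨show F (x, G y') = c by rw [h']; exact hxy', rfl, h⟩, rfl⟩
        · rintro ⟨⟨x'', y''⟩, ⟨-, -, h⟩, rfl⟩
          exact h
      rw [h3]
      refine (hL0.inter_right ?_).image continuous_snd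
      exact (isClosed_singleton.preimage continuous_fst).inter
        (isClosed_eq (by fun_prop) continuous_const)
    obtain ⟨γ, T0, hγ, hval⟩ := h2 (G y) ⟨y, rfl⟩ hc2 (fun y' hy' => by
      have h3 : F (x, G y') = c := by rw [hy']; exact hxy'
      exact (hreg' x y' h3 (by rw [hy']; exact hx0)).2)
    refine ⟨fun t => (x, γ (κ * t)), T0 / |κ|, ⟨div_pos hγ.pos (abs_pos.2 hκ), fun t => ?_,
      fun t => ?_⟩, fun t => ?_⟩
    · show (x, γ (κ * (t + T0 / |κ|))) = (x, γ (κ * t))
      congr 1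
      rcases lt_or_gt_of_ne hκ with h | h
      · have e : κ * (t + T0 / |κ|) = κ * t - T0 := by
          rw [abs_of_neg h]; field_simp; ring
        rw [e]
        have := hγ.period (κ * t - T0)
        rw [sub_add_cancel] at this
        exact this.symm
      · have e : κ * (t + T0 / |κ|) = κ * t + T0 := by
          rw [abs_of_pos h]; field_simp
        rw [e]
        exact hγ.period _
    · obtain ⟨X, hX, hX'⟩ := hγ.orbit (κ * t)
      refine ⟨(0, κ • X), ?_, ?_⟩
      · have h3 : HasMFDerivAt 𝓘(ℝ, ℝ) 𝓘(ℝ, ℝ) (fun t : ℝ => κ * t) t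
            ((1 : ℝ →L[ℝ] ℝ).smulRight κ) := by
          have h4 : HasDerivAt (fun t : ℝ => κ * t) κ t := by
            simpa using (hasDerivAt_id t).const_mul κ
          exact h4.hasFDerivAt.hasMFDerivAt
        have h4 : HasMFDerivAt 𝓘(ℝ, ℝ) 𝓘(ℝ, T.E) (fun t => γ (κ * t)) t
            ((1 : ℝ →L[ℝ] ℝ).smulRight (κ • X)) := by
          have h5 := HasMFDerivAt.comp t hX h3
          refine h5.congr_mfderiv ?_
          refine ContinuousLinearMap.ext fun (r : ℝ) => ?_
          show (r * κ) • X = r • (κ • X)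
          rw [mul_smul]
        have h5 : HasMFDerivAt 𝓘(ℝ, ℝ) (𝓘(ℝ, S.E).prod 𝓘(ℝ, T.E)) (fun t => (x, γ (κ * t))) t
            ((0 : ℝ →L[ℝ] S.E).prod ((1 : ℝ →L[ℝ] ℝ).smulRight (κ • X))) :=
          (hasMFDerivAt_const x t).prodMk h4
        have h6 : ((0 : ℝ →L[ℝ] S.E).prod ((1 : ℝ →L[ℝ] ℝ).smulRight (κ • X))) =
            (1 : ℝ →L[ℝ] ℝ).smulRight ((0, κ • X) : S.E × T.E) := by
          ext <;> simp
        rw [h6] at h5
        exact h5
      · rintro ⟨a, b⟩
        have hv : G (γ (κ * t)) = G y := hval _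
        have hX2 : T.form (γ (κ * t)) X b = - T.d G (γ (κ * t)) b := hX' b
        show (S.prod T).form (x, γ (κ * t)) (0, κ • X) (a, b) =
          - (S.prod T).d (fun p => F (p.1, G p.2)) (x, γ (κ * t)) (a, b)
        rw [prod_form_apply, d_comp hF hG]
        simp only [map_zero, ContinuousLinearMap.zero_apply, zero_add, map_smul,
          ContinuousLinearMap.smul_apply, smul_eq_mul]
        rw [hv, hx0, ← hκdef, hX2]
        simp
    · show F (x, G (γ (κ * t))) = c
      rw [hval]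
      exact hxy'

end Pool.Agent.X167.W
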