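import Mathlib
import Pool.Agent.Helper186.Cutoff
import Pool.Agent.Helper186.ParamInt
import Pool.Agent.H826R2.Wein.HFlow

/-! Local coordinates, flows of cut off vector fields, recurrence on compact sets. -/

open scoped Topology ContDiff Manifold
open Set Filter Bundle Pool.Agent.Helper186 Pool.Agent.H826R2.Wein

noncomputable section

namespace Pool.Agent.X167.W

set_option linter.unusedSectionVars false

universe u

variable {E : Type u} [NormedAddCommGroup E] [NormedSpace ℝ E] [FiniteDimensional ℝ E]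
  {P : Type*} [TopologicalSpace P] [ChartedSpace E P] [IsManifold 𝓘(ℝ, E) ∞ P]
  {F : Type*} [NormedAddCommGroup F] [NormedSpace ℝ F] [FiniteDimensional ℝ F]

/-- immersions are locally injective -/
lemma locally_injective {G : P → F}
    (hG : ContMDiff 𝓘(ℝ, E) 𝓘(ℝ, F) ∞ G) {y : P}
    (hinj : Function.Injective (mfderiv 𝓘(ℝ, E) 𝓘(ℝ, F) G y)) :
    ∃ U ∈ 𝓝 y, InjOn G U := by
  let D : E →ₗ[ℝ] F :=
    (show E →L[ℝ] F from mfderiv 𝓘(ℝ, E) 𝓘(ℝ, F) G y)
  have hD : LinearMap.ker D = ⊥ := LinearMap.ker_eq_bot.2 hinj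
  obtain ⟨g, hg⟩ := LinearMap.exists_leftInverse_of_injective D hD
  let L : F →L[ℝ] E := LinearMap.toContinuousLinearMap g
  let e := extChartAt 𝓘(ℝ, E) y
  let ψ : E → E := fun z => L (G (e.symm z))
  have h1 : ContDiffAt ℝ ∞ ψ (e y) := by
    have h2 : ContMDiffOn 𝓘(ℝ, E) 𝓘(ℝ, E) ∞ ψ e.target :=
      (L.contMDiff.comp hG).comp_contMDiffOn (contMDiffOn_extChartAt_symm y)
    have h3 := (contMDiffOn_iff_contDiffOn.1 h2)
    exact h3.contDiffAt (extChartAt_target_mem_nhds y)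
  have h4 : HasFDerivAt ψ (ContinuousLinearMap.id ℝ E) (e y) := by
    have h5 := (h1.differentiableAt (by simp)).hasFDerivAt
    have h6 : fderiv ℝ ψ (e y) = ContinuousLinearMap.id ℝ E := by
      ext u
      have h7 : fderiv ℝ ψ (e y) u = L (fderiv ℝ (G ∘ e.symm) (e y) u) := by
        have h8 : DifferentiableAt ℝ (G ∘ e.symm) (e y) := by
          have h2 : ContMDiffOn 𝓘(ℝ, E) 𝓘(ℝ, F) ∞ (G ∘ e.symm) e.target :=
            hG.comp_contMDiffOn (contMDiffOn_extChartAt_symm y)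
          exact ((contMDiffOn_iff_contDiffOn.1 h2).contDiffAt
            (extChartAt_target_mem_nhds y)).differentiableAt (by simp)
        have h9 := (L.hasFDerivAt.comp (e y) h8.hasFDerivAt).fderiv
        exact DFunLike.congr_fun h9 u
      rw [h7, ← mfderiv_eq_fderiv_chart (hG.mdifferentiableAt (by simp)) u]
      exact DFunLike.congr_fun hg u
    rwa [h6] at h5
  have h5 : HasStrictFDerivAt ψ ((ContinuousLinearEquiv.refl ℝ E : E ≃L[ℝ] E) : E →L[ℝ] E)
      (e y) := by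
    have := h1.hasStrictFDerivAt' h4 (by simp)
    exact this
  let Φ := h5.toOpenPartialHomeomorph ψ
  have hΦ : Φ.source ∈ 𝓝 (e y) := Φ.open_source.mem_nhds h5.mem_toOpenPartialHomeomorph_source
  have hinjΦ : InjOn ψ Φ.source := Φ.injOn
  refine ⟨e.source ∩ e ⁻¹' Φ.source, ?_, ?_⟩
  · exact Filter.inter_mem (extChartAt_source_mem_nhds y)
      ((continuousAt_extChartAt y).preimage_mem_nhds hΦ)
  · rintro a ⟨ha1, ha2⟩ b ⟨hb1, hb2⟩ hab
    have h6 : ψ (e a) = ψ (e b) := by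
      show L (G (e.symm (e a))) = L (G (e.symm (e b)))
      rw [e.left_inv ha1, e.left_inv hb1, hab]
    have h7 := hinjΦ ha2 hb2 h6
    rw [← e.left_inv ha1, h7, e.left_inv hb1]

/-- smooth functions with prescribed differential at a point -/
lemma exists_function [T2Space P] [SigmaCompactSpace P] (y : P) (l : E →L[ℝ] ℝ) :
    ∃ f : P → ℝ, ContMDiff 𝓘(ℝ, E) 𝓘(ℝ, ℝ) ∞ f ∧
      ∀ u : E, (mfderiv 𝓘(ℝ, E) 𝓘(ℝ, ℝ) f y : E →L[ℝ] ℝ) u = l u := by
  let e := extChartAt 𝓘(ℝ, E) y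
  have hs : IsOpen e.source := isOpen_extChartAt_source y
  have hf : ContMDiffOn 𝓘(ℝ, E) 𝓘(ℝ, ℝ) ∞ (fun z => l (e z)) e.source :=
    l.contMDiff.comp_contMDiffOn (by
      have := contMDiffOn_extChartAt (I := 𝓘(ℝ, E)) (x := y) (n := ∞)
      rwa [← extChartAt_source 𝓘(ℝ, E)] at this)
  obtain ⟨f, K', hfs, -, -, h1, -⟩ := exists_extension (I := 𝓘(ℝ, E)) (isCompact_singleton (x := y))
    hs (singleton_subset_iff.2 (mem_extChartAt_source (I := 𝓘(ℝ, E)) y)) hf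
  refine ⟨f, hfs, fun u => ?_⟩
  have h2 := mfderiv_eq_fderiv_chart (I := 𝓘(ℝ, E)) (hfs.mdifferentiableAt (x := y) (by simp)) u
  have h3 : (f ∘ e.symm) =ᶠ[𝓝 (e y)] fun w => l w := by
    have h4 : ∀ᶠ z in 𝓝 y, f z = l (e z) := by simpa using h1
    have h5 : ContinuousAt e.symm (e y) := continuousAt_extChartAt_symm y
    have h6 : Tendsto e.symm (𝓝 (e y)) (𝓝 y) := by
      have h7 : e.symm (e y) = y := extChartAt_to_inv y
      rw [ContinuousAt, h7] at h5
      exact h5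
    filter_upwards [h6.eventually h4, extChartAt_target_mem_nhds (I := 𝓘(ℝ, E)) y] with w hw hw'
    show f (e.symm w) = l w
    rw [hw, e.right_inv hw']
  have h4 : fderiv ℝ (f ∘ e.symm) (e y) = l := by
    rw [h3.fderiv_eq]
    exact l.fderiv
  show (mfderiv 𝓘(ℝ, E) 𝓘(ℝ, ℝ) f y) u = l u
  rw [h2]
  show fderiv ℝ (f ∘ e.symm) (e y) u = l u
  rw [h4]

/-- Given a smooth vector field and a compact set there is a global smooth flow whose orbits which
stay in the set are integral curves of the field. -/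
lemma exists_cut_flow [T2Space P] [SigmaCompactSpace P]
    {X : (x : P) → TangentSpace 𝓘(ℝ, E) x}
    (hX : ContMDiff 𝓘(ℝ, E) 𝓘(ℝ, E).tangent ∞ (fun x => (⟨x, X x⟩ : TangentBundle 𝓘(ℝ, E) P)))
    {K : Set P} (hK : IsCompact K) :
    ∃ (χ : P → ℝ) (Fl : P → ℝ → P), (∀ x ∈ K, χ x = 1) ∧ (∀ x, Fl x 0 = x) ∧
      (∀ x, IsMIntegralCurve (I := 𝓘(ℝ, E)) (Fl x) (fun x => χ x • X x)) ∧
      (∀ x s t, Fl x (s + t) = Fl (Fl x s) t) ∧
      Continuous (fun p : P × ℝ => Fl p.1 p.2) := by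
  have : IsManifold 𝓘(ℝ, E) 1 P := IsManifold.of_le (n := ∞) (by simp)
  obtain ⟨χ, K', hχ, hK', -, h1, h2⟩ := exists_cutoff 𝓘(ℝ, E) hK isOpen_univ (subset_univ K)
  have hW : ContMDiff 𝓘(ℝ, E) 𝓘(ℝ, E).tangent ∞
      (fun x => (⟨x, χ x • X x⟩ : TangentBundle 𝓘(ℝ, E) P)) :=
    hχ.smul_section hX
  have h3 : ∀ x, ∃ c : ℝ → P, c 0 = x ∧ IsMIntegralCurve (I := 𝓘(ℝ, E)) c (fun x => χ x • X x) :=
    fun x => complete_of_compact hW hK' (fun x hx => by rw [h2 x hx, zero_smul]) x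
  choose Fl hFl0 hFl using h3
  refine ⟨χ, Fl, fun x hx => (h1.self_of_nhdsSet) x hx, hFl0, hFl, ?_, ?_⟩
  · exact flow_add hW hFl0 hFl
  · exact (contMDiff_flow hW hFl0 hFl).continuous

end Pool.Agent.X167.W
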