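import Mathlib
import Pool.Agent.X167.W.Closes
import Pool.Agent.X167.W.LocInj

/-! Compact regular level sets on symplectic surfaces consist of periodic orbits. -/

open scoped Topology ContDiff Manifold
open Set Filter Bundle Pool.Agent.Helper186 Pool.Agent.H826R2.Wein

noncomputable section

namespace Pool.Agent.X167.W

set_option linter.unusedSectionVars false

universe u

section recur

variable {P : Type*} [TopologicalSpace P] {Fl : P → ℝ → P}

/-- A point of a compact set which is passed by all orbits of the set that come close to it lies on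
a periodic orbit. -/
lemma exists_return (hadd : ∀ x s t, Fl x (s + t) = Fl (Fl x s) t) {L : Set P} (hL : IsCompact L)
    (hinv : ∀ x ∈ L, ∀ t, Fl x t ∈ L)
    (hloc : ∀ y ∈ L, ∀ᶠ z in 𝓝 y, z ∈ L → ∃ s : ℝ, |s| < 1 / 3 ∧ Fl z s = y) {x : P}
    (hx : x ∈ L) : ∃ T : ℝ, 0 < T ∧ ∀ t, Fl x (t + T) = Fl x t := by
  obtain ⟨y, hyL, hy⟩ := hL.exists_mapClusterPt (f := atTop) (u := fun n : ℕ => Fl x n)
    (Filter.tendsto_principal.2 (Filter.Eventually.of_forall fun n : ℕ => hinv x hx n))
  have h1 := hy.frequently (hloc y hyL)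
  obtain ⟨n, -, hn⟩ := (Filter.frequently_atTop.1 h1) 0
  obtain ⟨m, hm, hm'⟩ := (Filter.frequently_atTop.1 h1) (n + 1)
  obtain ⟨s, hs, hs'⟩ := hn (hinv x hx n)
  obtain ⟨s', hs1, hs1'⟩ := hm' (hinv x hx m)
  rw [← hadd] at hs' hs1'
  have hnm : (n : ℝ) + 1 ≤ m := by exact_mod_cast hm
  rw [abs_lt] at hs hs1
  refine ⟨(m + s') - (n + s), by linarith, fun t => ?_⟩
  have e1 : t + ((m + s') - (n + s)) = (m + s') + (t - (n + s)) := by ring
  have e2 : t = (n + s) + (t - (n + s)) := by ring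
  rw [e1, hadd, hs1']
  conv_rhs => rw [e2, hadd, hs']

end recur

variable {S : Sys.{u}}

lemma exists_X (hS : S.IsSurface) (H : S.M → ℝ) :
    ∃ X : S.M → S.E, ∀ (x : S.M) (v : S.E), S.form x (X x) v = - S.d H x v := by
  have h : ∀ x : S.M, ∃ u : S.E, ∀ v : S.E, S.form x u v = - S.d H x v := by
    intro x
    have hinj : Function.Injective (S.form x : S.E →ₗ[ℝ] (S.E →L[ℝ] ℝ)) := by
      rw [injective_iff_map_eq_zero]
      intro u hu
      apply hS.nondeg x u
      intro v
      exact DFunLike.congr_fun hu v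
    have hdim : Module.finrank ℝ S.E = Module.finrank ℝ (S.E →L[ℝ] ℝ) := by
      rw [← (LinearMap.toContinuousLinearMap (𝕜 := ℝ) (E := S.E) (F' := ℝ)).finrank_eq]
      exact (Subspace.dual_finrank_eq (K := ℝ) (V := S.E)).symm
    have hsurj := (LinearMap.injective_iff_surjective_of_finrank_eq_finrank
      (f := (S.form x : S.E →ₗ[ℝ] (S.E →L[ℝ] ℝ))) hdim).1 hinj
    obtain ⟨u, hu⟩ := hsurj (- S.d H x)
    exact ⟨u, fun v => by
      have := DFunLike.congr_fun hu v
      simpa using this⟩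
  choose X hX using h
  exact ⟨X, hX⟩

lemma smooth_X (hS : S.IsSurface) {H : S.M → ℝ} (hH : S.Smooth H)
    {X : S.M → S.E}
    (hX : ∀ (x : S.M) (v : S.E), S.form x (X x) v = - S.d H x v) :
    ContMDiff 𝓘(ℝ, S.E) 𝓘(ℝ, S.E).tangent ∞
      (fun x => (⟨x, X x⟩ : TangentBundle 𝓘(ℝ, S.E) S.M)) := by
  intro x
  refine contMDiffAt_of_pairing (J := 𝓘(ℝ, S.E)) (f := fun x : S.M => x) contMDiffAt_id
    (B := fun y => S.form y) (hS.smooth x) (hS.nondeg x) ?_
  intro v hv
  have h1 : ContMDiffAt 𝓘(ℝ, S.E) 𝓘(ℝ, ℝ) ∞ (fun x => - dForm 𝓘(ℝ, S.E) H x (v x)) x :=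
    ((smoothForm_dForm hH).comp hv le_rfl).neg
  refine h1.congr_of_eventuallyEq (Filter.Eventually.of_forall fun p => ?_)
  exact hX p (v p)

/-- **Compact regular level sets on symplectic surfaces.** -/
theorem closes_surface (hS : S.IsSurface) {H : S.M → ℝ} (hH : S.Smooth H) : S.Closes H := by
  intro c ⟨x, hx⟩ hL hreg
  obtain ⟨X, hX⟩ := exists_X hS H
  have hXs := smooth_X hS hH hX
  obtain ⟨χ, Fl, hχ, hFl0, hFl, hadd, hcont⟩ := exists_cut_flow hXs hL
  have hdX : ∀ y : S.M, S.d H y (X y) = 0 := by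
    intro y
    have h1 := hX y (X y)
    have h2 : S.form y (X y) (X y) = 0 := hS.alt y (X y)
    linarith
  have hval : ∀ (y : S.M) (t : ℝ), H (Fl y t) = H y := by
    intro y t
    have h1 : ∀ s, HasDerivAt (fun s => H (Fl y s)) 0 s := by
      intro s
      have h2 := hasDerivAt_along (W := fun z => ((χ z • X z : S.E) : TangentSpace 𝓘(ℝ, S.E) z))
        (hFl y s) hH
      refine h2.congr_deriv ?_
      show S.d H (Fl y s) (χ (Fl y s) • X (Fl y s)) = 0
      rw [map_smul, hdX, smul_zero]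
    have h2 := is_const_of_deriv_eq_zero (fun s => (h1 s).differentiableAt)
      (fun s => (h1 s).deriv) t 0
    simp only [hFl0] at h2
    exact h2
  set L : Set S.M := {x | H x = c} with hLdef
  have hinv : ∀ y ∈ L, ∀ t, Fl y t ∈ L := fun y hy t => (hval y t).trans hy
  -- the local lemma
  have hloc : ∀ y ∈ L, ∀ᶠ z in 𝓝 y, z ∈ L → ∃ s : ℝ, |s| < 1 / 3 ∧ Fl z s = y := by
    intro y hy
    have hXy : X y ≠ 0 := by
      intro h0
      apply hreg y hy
      ext v
      have := hX y v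
      rw [h0, map_zero] at this
      simpa using this
    obtain ⟨l, hl⟩ : ∃ l : S.E →L[ℝ] ℝ, l (X y) = 1 := by
      obtain ⟨l, hl⟩ := SeparatingDual.exists_eq_one (R := ℝ) hXy
      exact ⟨l, hl⟩
    obtain ⟨f, hf, hfl⟩ := exists_function y l
    -- `(f, H)` is locally injective
    have hG : ContMDiff 𝓘(ℝ, S.E) 𝓘(ℝ, ℝ × ℝ) ∞ (fun z => (f z, H z)) :=
      hf.prodMk_space hH
    have hker : ∀ u : S.E, l u = 0 → S.d H y u = 0 → u = 0 := by
      intro u hu1 hu2
      by_contra hu
      -- `u` and `X y` are independent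
      have hli : LinearIndependent ℝ ![X y, u] := by
        rw [LinearIndependent.pair_iff]
        intro a b hab
        have h1 : a = 0 := by
          have := congrArg l hab
          rw [map_add, map_smul, map_smul, hu1, hl] at this
          simpa using this
        subst h1
        rw [zero_smul, zero_add] at hab
        exact ⟨rfl, (smul_eq_zero.1 hab).resolve_right hu⟩
      have hspan := hli.span_eq_top_of_card_eq_finrank (by simp [hS.dim])
      apply hreg y hy
      ext v
      have hv : v ∈ Submodule.span ℝ (range ![X y, u]) := by rw [hspan]; trivial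
      rw [Matrix.range_cons, Matrix.range_cons, Matrix.range_empty, union_empty] at hv
      rw [← Set.insert_eq] at hv
      obtain ⟨a, b, rfl⟩ := Submodule.mem_span_pair.1 hv
      rw [map_add, map_smul, map_smul, hdX, hu2]
      simp
    have hinj : Function.Injective
        (mfderiv 𝓘(ℝ, S.E) 𝓘(ℝ, ℝ × ℝ) (fun z => (f z, H z)) y) := by
      have h1 : HasMFDerivAt 𝓘(ℝ, S.E) 𝓘(ℝ, ℝ) f y
          (mfderiv 𝓘(ℝ, S.E) 𝓘(ℝ, ℝ) f y : S.E →L[ℝ] ℝ) :=
        (hf.mdifferentiableAt (by simp)).hasMFDerivAt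
      have h2 : HasMFDerivAt 𝓘(ℝ, S.E) 𝓘(ℝ, ℝ) H y (S.d H y) := Sys.hasD hH y
      have h3 : HasMFDerivAt 𝓘(ℝ, S.E) 𝓘(ℝ, ℝ × ℝ) (fun z => (f z, H z)) y
          ((mfderiv 𝓘(ℝ, S.E) 𝓘(ℝ, ℝ) f y : S.E →L[ℝ] ℝ).prod (S.d H y)) := by
        exact ⟨h1.1.prodMk h2.1, h1.2.prodMk h2.2⟩
      rw [h3.mfderiv, injective_iff_map_eq_zero]
      intro u hu
      have h4 : (mfderiv 𝓘(ℝ, S.E) 𝓘(ℝ, ℝ) f y : S.E →L[ℝ] ℝ) u = (0:ℝ) := congrArg Prod.fst hu
      have h5 : S.d H y u = (0:ℝ) := congrArg Prod.snd hu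
      exact hker u (by rw [← hfl]; exact h4) h5
    obtain ⟨U, hU, hUinj⟩ := locally_injective hG hinj
    -- `f` increases along the orbit of `y`
    have hder : HasDerivAt (fun s => f (Fl y s)) 1 0 := by
      have h2 := hasDerivAt_along (W := fun z => ((χ z • X z : S.E) : TangentSpace 𝓘(ℝ, S.E) z))
        (hFl y 0) hf
      refine h2.congr_deriv ?_
      have e : Fl y 0 = y := hFl0 y
      show (mfderiv 𝓘(ℝ, S.E) 𝓘(ℝ, ℝ) f (Fl y 0) : S.E →L[ℝ] ℝ)
        (χ (Fl y 0) • X (Fl y 0)) = 1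
      rw [e, hχ y hy, one_smul]
      exact (hfl _).trans hl
    have hcy : Continuous (fun s => Fl y s) := hcont.comp (continuous_const.prodMk continuous_id)
    have hUy : ∀ᶠ s in 𝓝 (0:ℝ), Fl y s ∈ interior U := by
      apply hcy.continuousAt.preimage_mem_nhds
      show interior U ∈ 𝓝 (Fl y 0)
      rw [hFl0]
      exact interior_mem_nhds.2 hU
    obtain ⟨δ, hδ, hδ3, hδU, hδ1, hδ2⟩ : ∃ δ > (0:ℝ), δ < 1 / 3 ∧
        (∀ s ∈ Icc (-δ) δ, Fl y s ∈ interior U) ∧ f y < f (Fl y δ) ∧ f (Fl y (-δ)) < f y := by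
      obtain ⟨r, hr, hrU⟩ := Metric.eventually_nhds_iff.1 hUy
      have hlin := hder.isLittleO.def (c := 1 / 2) (by norm_num)
      obtain ⟨r', hr', hr'U⟩ := Metric.eventually_nhds_iff.1 hlin
      set δ := min (min (r / 2) (r' / 2)) (1 / 4) with hδdef
      have hδ : 0 < δ := by positivity
      have hδr : δ < r := lt_of_le_of_lt ((min_le_left _ _).trans (min_le_left _ _)) (by linarith)
      have hδr' : δ < r' := lt_of_le_of_lt ((min_le_left _ _).trans (min_le_right _ _)) (by linarith)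
      have hδ4 : δ ≤ 1 / 4 := min_le_right _ _
      refine ⟨δ, hδ, by linarith, ?_, ?_, ?_⟩
      · intro s hs
        apply hrU
        rw [Real.dist_eq, sub_zero, abs_lt]
        constructor <;> linarith [hs.1, hs.2]
      · have h1 := hr'U (y := δ) (by rw [Real.dist_eq, sub_zero, abs_of_pos hδ]; exact hδr')
        simp only [hFl0, sub_zero, smul_eq_mul, mul_one, Real.norm_eq_abs, abs_of_pos hδ] at h1
        have h2 := (abs_le.1 h1).1
        linarith
      · have h1 := hr'U (y := -δ) (by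
          rw [Real.dist_eq, sub_zero, abs_neg, abs_of_pos hδ]; exact hδr')
        simp only [hFl0, sub_zero, smul_eq_mul, mul_one, Real.norm_eq_abs, abs_neg,
          abs_of_pos hδ] at h1
        have h2 := (abs_le.1 h1).2
        linarith
    have hfc : Continuous f := hf.continuous
    have hc1 : Continuous (fun z => f (Fl z δ)) :=
      hfc.comp (hcont.comp (continuous_id.prodMk continuous_const))
    have hc2 : Continuous (fun z => f (Fl z (-δ))) :=
      hfc.comp (hcont.comp (continuous_id.prodMk continuous_const))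
    have ht : ∀ᶠ z in 𝓝 y, ∀ s ∈ Icc (-δ) δ, Fl z s ∈ interior U := by
      apply isCompact_Icc.eventually_forall_of_forall_eventually
      intro s hs
      exact hcont.continuousAt.preimage_mem_nhds (isOpen_interior.mem_nhds (hδU s hs))
    filter_upwards [ht, hc1.continuousAt.eventually (lt_mem_nhds hδ1),
      hc2.continuousAt.eventually (gt_mem_nhds hδ2)] with z hz1 hz2 hz3 hzL
    have hcz : ContinuousOn (fun s => f (Fl z s)) (Icc (-δ) δ) :=
      (hfc.comp (hcont.comp (continuous_const.prodMk continuous_id))).continuousOn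
    obtain ⟨s, hs, hs'⟩ := intermediate_value_Icc (by linarith) hcz ⟨hz3.le, hz2.le⟩
    refine ⟨s, ?_, ?_⟩
    · rw [abs_lt]
      constructor <;> linarith [hs.1, hs.2]
    · apply hUinj (interior_subset (hz1 s hs)) (mem_of_mem_nhds hU)
      have h1 : H (Fl z s) = H y := (hval z s).trans (hzL.trans hy.symm)
      exact Prod.ext hs' h1
  obtain ⟨T, hT, hper⟩ := exists_return hadd hL hinv hloc (show x ∈ L from hx)
  refine ⟨Fl x, T, ⟨hT, hper, fun t => ?_⟩, fun t => hinv x hx t⟩
  refine ⟨X (Fl x t), ?_, fun v => hX _ v⟩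
  have h1 := hFl x t
  simp only [hχ _ (hinv x hx t), one_smul] at h1
  exact h1

/-- **Periodic orbits of composed Hamiltonian systems.** -/
theorem closes_of_separable {S : Sys.{u}} {H : S.M → ℝ} (h : Separable S H) : S.Closes H := by
  induction h with
  | surface S hS H hH => exact closes_surface hS hH
  | known S H hH h => exact h
  | comp S T F hF G hG h1 h2 ih1 ih2 => exact closes_comp hF hG ih1 ih2

end Pool.Agent.X167.W
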