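import Mathlib
import Pool.Agent.W671.WU8
import Pool.Agent.X167.W.Surf

/-! Strict contactomorphisms with nondegenerate fixed points. -/

open scoped Topology ContDiff Manifold
open Set Filter Bundle Pool.Agent.Helper186 Pool.Agent.H826R2.Wein Pool.Agent.W671.WU

noncomputable section

namespace Pool.Agent.X167.W

set_option linter.unusedSectionVars false

universe u

variable {E : Type u} [NormedAddCommGroup E] [NormedSpace ℝ E] [FiniteDimensional ℝ E]
  {P : Type*} [TopologicalSpace P] [ChartedSpace E P] [IsManifold 𝓘(ℝ, E) ∞ P]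
  {β : (x : P) → TangentSpace 𝓘(ℝ, E) x →L[ℝ] ℝ} {R : (x : P) → TangentSpace 𝓘(ℝ, E) x}

/-- strict maps -/
def Strict (β : (x : P) → TangentSpace 𝓘(ℝ, E) x →L[ℝ] ℝ) (g : P → P) : Prop :=
  ∀ (x : P) (u : TangentSpace 𝓘(ℝ, E) x), β (g x) (mfderiv 𝓘(ℝ, E) 𝓘(ℝ, E) g x u) = β x u

variable (E) in
/-- the derivative as an endomorphism of the model space -/
def dE (g : P → P) (x : P) : E →L[ℝ] E := mfderiv 𝓘(ℝ, E) 𝓘(ℝ, E) g x

/-- the form as a linear form on the model space -/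
def bE (β : (x : P) → TangentSpace 𝓘(ℝ, E) x →L[ℝ] ℝ) (x : P) : E →L[ℝ] ℝ := β x

/-- the field as a vector of the model space -/
def rE (R : (x : P) → TangentSpace 𝓘(ℝ, E) x) (x : P) : E := R x

/-- strict maps push the Reeb field forward -/
lemma reeb_push (c : CD β R) {g : P → P} (hg : ContMDiff 𝓘(ℝ, E) 𝓘(ℝ, E) ∞ g)
    (hs : Strict β g) (x : P) : dE E g x (rE R x) = rE R (g x) := by
  have hHB : ∀ u v : E, HB β (g x) (dE E g x u) (dE E g x v) = HB β x u v := by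
    intro u v
    have h1 : pullForm 𝓘(ℝ, E) 𝓘(ℝ, E) g β = β := by
      ext1 y
      exact ContinuousLinearMap.ext fun w => hs y w
    have h2 := extDer_pull hg c.contact.smooth x u v
    rw [h1] at h2
    rw [HB_apply, HB_apply]
    have e1 : β (g x) (dE E g x u) = β x u := hs x u
    have e2 : β (g x) (dE E g x v) = β x v := hs x v
    rw [e1, e2, h2]
    rfl
  have hinj : Function.Injective (dE E g x : E →ₗ[ℝ] E) := by
    rw [injective_iff_map_eq_zero]
    intro u hu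
    apply HB_nondeg c.contact c.reeb x u
    intro v
    have h1 := hHB u v
    have h2 : dE E g x u = 0 := hu
    rw [h2] at h1
    rw [← h1]
    have h3 : HB β (g x) (0 : E) = 0 := map_zero (HB β (g x))
    exact DFunLike.congr_fun h3 (dE E g x v)
  have hsurj : Function.Surjective (dE E g x : E →ₗ[ℝ] E) :=
    LinearMap.injective_iff_surjective.1 hinj
  have hRw : ∀ (y : P) (w : E), HB β y (R y) w = β y w := by
    intro y w
    rw [HB_apply, c.reeb.unit, c.reeb.kernel, one_mul, add_zero]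
  have h3 : ∀ w : E, HB β (g x) (dE E g x (rE R x)) w = HB β (g x) (R (g x)) w := by
    intro w
    obtain ⟨v, rfl⟩ := hsurj w
    have h4 := hHB (R x) v
    have h5 : HB β (g x) (R (g x)) (dE E g x v) = β (g x) (dE E g x v) := hRw _ _
    have h6 : β (g x) (dE E g x v) = β x v := hs x v
    have h7 : HB β x (R x) v = β x v := hRw _ _
    exact (h4.trans h7).trans (h5.trans h6).symm
  rw [← sub_eq_zero]
  apply HB_nondeg c.contact c.reeb (g x)
  intro w
  have h8 : HB β (g x) (dE E g x (rE R x) - rE R (g x) : E) =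
      HB β (g x) (dE E g x (rE R x) : E) - HB β (g x) (R (g x)) := map_sub (HB β (g x)) _ _
  have h9 := DFunLike.congr_fun h8 w
  exact h9.trans (sub_eq_zero.2 (h3 w))

/-- strict maps commute with the Reeb flow -/
lemma reeb_conj [T2Space P] (c : CD β R) {g : P → P} (hg : ContMDiff 𝓘(ℝ, E) 𝓘(ℝ, E) ∞ g)
    (hs : Strict β g) {Fl : P → ℝ → P} (h : RF β R Fl) (x : P) (t : ℝ) :
    g (Fl x t) = Fl (g x) t := by
  have : IsManifold 𝓘(ℝ, E) 1 P := IsManifold.of_le (n := ∞) (by simp)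
  have h1 : IsMIntegralCurve (I := 𝓘(ℝ, E)) (fun t => g (Fl x t)) R := by
    intro s
    have h2 := HasMFDerivAt.comp s (g := g) (f := Fl x)
      (hg.mdifferentiableAt (by simp)).hasMFDerivAt (h.int x s)
    refine h2.congr_mfderiv ?_
    refine ContinuousLinearMap.ext fun (r : ℝ) => ?_
    have h3 := reeb_push c hg hs (Fl x s)
    show dE E g (Fl x s) (r • rE R (Fl x s)) = r • rE R (g (Fl x s))
    rw [map_smul, h3]
  have h2 : (fun t => g (Fl x t)) = Fl (g x) := by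
    refine isMIntegralCurve_Ioo_eq_of_contMDiff_boundaryless (t₀ := 0)
      ((smooth_reeb c).of_le (by simp)) h1 (h.int _) ?_
    simp [h.zero]
  exact congrFun h2 t

/-- `Dg - 1 + β ⊗ R` -/
def Am (β : (x : P) → TangentSpace 𝓘(ℝ, E) x →L[ℝ] ℝ) (R : (x : P) → TangentSpace 𝓘(ℝ, E) x)
    (g : P → P) (x : P) : E →L[ℝ] E :=
  dE E g x - ContinuousLinearMap.id ℝ E + (bE β x).smulRight (rE R x)

lemma Am_apply (g : P → P) (x : P) (u : E) :
    Am β R g x u = dE E g x u - u + bE β x u • rE R x := rfl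

lemma det_eq_of_conj {A B J : E →L[ℝ] E} (hJ : Function.Injective J)
    (h : A.comp J = J.comp B) : A.det = B.det := by
  have h1 := congrArg ContinuousLinearMap.det h
  have h2 : (A.comp J).det = A.det * J.det := by
    exact LinearMap.det_comp (A : E →ₗ[ℝ] E) (J : E →ₗ[ℝ] E)
  have h3 : (J.comp B).det = J.det * B.det := by
    exact LinearMap.det_comp (J : E →ₗ[ℝ] E) (B : E →ₗ[ℝ] E)
  have h4 : J.det ≠ 0 := by
    intro h0
    have h5 : LinearMap.ker (J : E →ₗ[ℝ] E) ≠ ⊥ := by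
      have := LinearMap.bot_lt_ker_of_det_eq_zero (f := (J : E →ₗ[ℝ] E)) h0
      exact this.ne'
    exact h5 (LinearMap.ker_eq_bot.2 hJ)
  rw [h2, h3, mul_comm] at h1
  exact mul_left_cancel₀ h4 h1

lemma det_ne_zero_iff {A : E →L[ℝ] E} : A.det ≠ 0 ↔ ∀ u, A u = 0 → u = 0 := by
  have h := LinearMap.det_eq_zero_iff_ker_ne_bot (f := (A : E →ₗ[ℝ] E))
  constructor
  · intro h1 u hu
    by_contra hne
    apply h1
    apply h.2
    intro h2
    have h3 : u ∈ LinearMap.ker (A : E →ₗ[ℝ] E) := hu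
    rw [h2] at h3
    exact hne h3
  · intro h1 h2
    apply h.1 h2
    rw [LinearMap.ker_eq_bot']
    exact h1

lemma bE_strict {g : P → P} (hs : Strict β g) (x : P) (u : E) :
    bE β (g x) (dE E g x u) = bE β x u := hs x u

lemma bE_rE (c : CD β R) (x : P) : bE β x (rE R x) = 1 := c.reeb.unit x

/-- nondegenerate fixed points -/
def Ndg (β : (x : P) → TangentSpace 𝓘(ℝ, E) x →L[ℝ] ℝ) (g : P → P) (x : P) : Prop :=
  ∀ u : E, bE β x u = 0 → dE E g x u = u → u = 0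

lemma det_Am_ne_zero (c : CD β R) {g : P → P} (hs : Strict β g) {x : P} (hx : g x = x) :
    (Am β R g x).det ≠ 0 ↔ Ndg β g x := by
  rw [det_ne_zero_iff]
  constructor
  · intro h u hu hgu
    apply h
    rw [Am_apply, hu, hgu, sub_self, zero_smul, add_zero]
  · intro h u hu
    rw [Am_apply] at hu
    have h1 := congrArg (bE β x) hu
    have h2 : bE β x (dE E g x u) = bE β x u := by
      have h3 := bE_strict hs x u
      rw [hx] at h3
      exact h3
    rw [map_add, map_sub, map_smul, map_zero, h2, bE_rE c, sub_self, zero_add, smul_eq_mul,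
      mul_one] at h1
    rw [h1, zero_smul, add_zero, sub_eq_zero] at hu
    exact h u h1 hu

lemma ker_of_ndg (c : CD β R) {g : P → P} (hg : ContMDiff 𝓘(ℝ, E) 𝓘(ℝ, E) ∞ g)
    (hs : Strict β g) {x : P} (hx : g x = x) (h : Ndg β g x) {u : E} (hu : dE E g x u = u) :
    u = bE β x u • rE R x := by
  rw [← sub_eq_zero]
  apply h
  · rw [map_sub, map_smul, bE_rE c, smul_eq_mul, mul_one, sub_self]
  · have h1 := reeb_push c hg hs x
    rw [hx] at h1
    rw [map_sub, map_smul, h1, hu]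

/-- **Invariance under the Reeb flow.** -/
lemma det_flow [T2Space P] (c : CD β R) {g : P → P} (hg : ContMDiff 𝓘(ℝ, E) 𝓘(ℝ, E) ∞ g)
    (hs : Strict β g) {Fl : P → ℝ → P} (h : RF β R Fl) {x : P} (hx : g x = x) (t : ℝ) :
    (Am β R g (Fl x t)).det = (Am β R g x).det := by
  have hFs := h.smooth_t t
  have hFst : Strict β (fun x => Fl x t) := h.strict t
  have hcomm : g ∘ (fun x => Fl x t) = (fun x => Fl x t) ∘ g := by
    ext1 y
    exact reeb_conj c hg hs h y t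
  have h1 : dE E (g ∘ fun x => Fl x t) x = (dE E g (Fl x t)).comp (dE E (fun x => Fl x t) x) :=
    mfderiv_comp x (hg.mdifferentiableAt (by simp)) (hFs.mdifferentiableAt (by simp))
  have h2 : dE E ((fun x => Fl x t) ∘ g) x =
      (dE E (fun x => Fl x t) (g x)).comp (dE E g x) :=
    mfderiv_comp x (hFs.mdifferentiableAt (by simp)) (hg.mdifferentiableAt (by simp))
  rw [hcomm, h2, hx] at h1
  -- the derivative of the flow is injective
  have hinj : Function.Injective (dE E (fun x => Fl x t) x) := by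
    have h3 : dE E ((fun x => Fl x (-t)) ∘ fun x => Fl x t) x =
        (dE E (fun x => Fl x (-t)) (Fl x t)).comp (dE E (fun x => Fl x t) x) :=
      mfderiv_comp x ((h.smooth_t (-t)).mdifferentiableAt (by simp))
        (hFs.mdifferentiableAt (by simp))
    have h4 : ((fun x => Fl x (-t)) ∘ fun x => Fl x t) = id := by
      ext1 y
      show Fl (Fl y t) (-t) = y
      rw [← h.add, add_neg_cancel, h.zero]
    have h5 : dE E (id : P → P) x = ContinuousLinearMap.id ℝ E := mfderiv_id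
    rw [h4, h5] at h3
    intro u v huv
    have h6 := DFunLike.congr_fun h3 u
    have h7 := DFunLike.congr_fun h3 v
    have h8 : u = dE E (fun x => Fl x (-t)) (Fl x t) (dE E (fun x => Fl x t) x u) := h6
    have h9 : v = dE E (fun x => Fl x (-t)) (Fl x t) (dE E (fun x => Fl x t) x v) := h7
    rw [h8, h9, huv]
  apply det_eq_of_conj hinj
  ext u
  have h3 : dE E g (Fl x t) (dE E (fun x => Fl x t) x u) =
      dE E (fun x => Fl x t) x (dE E g x u) := (DFunLike.congr_fun h1 u).symm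
  have h4 : bE β (Fl x t) (dE E (fun x => Fl x t) x u) = bE β x u := bE_strict hFst x u
  have h5 : dE E (fun x => Fl x t) x (rE R x) = rE R (Fl x t) := reeb_push c hFs hFst x
  show Am β R g (Fl x t) (dE E (fun x => Fl x t) x u) = dE E (fun x => Fl x t) x (Am β R g x u)
  rw [Am_apply, Am_apply, h3, h4, map_add, map_sub, map_smul, h5]

/-- `Am` in the chart at `x₀` -/
def Ac (β : (x : P) → TangentSpace 𝓘(ℝ, E) x →L[ℝ] ℝ) (Fl : P → ℝ → P) (g : P → P) (x₀ : P)
    (p : E) : E →L[ℝ] E :=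
  fderiv ℝ (ch x₀ g) p - ContinuousLinearMap.id ℝ E +
    (show E →L[ℝ] ℝ from chartForm 𝓘(ℝ, E) β x₀ p).smulRight (RF.Rc Fl x₀ p)

/-- **The determinant in a chart.** -/
lemma det_Ac {g : P → P} (hg : ContMDiff 𝓘(ℝ, E) 𝓘(ℝ, E) ∞ g)
    {Fl : P → ℝ → P} (h : RF β R Fl) (x₀ : P) {x : P} (hx : g x = x)
    (hxs : x ∈ (extChartAt 𝓘(ℝ, E) x₀).source) :
    (Ac β Fl g x₀ (extChartAt 𝓘(ℝ, E) x₀ x)).det = (Am β R g x).det := by
  set e := extChartAt 𝓘(ℝ, E) x₀ with he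
  set p := e x with hp
  have hpt : p ∈ e.target := e.map_source hxs
  have hsx : e.symm p = x := e.left_inv hxs
  let J : E →L[ℝ] E := mfderiv 𝓘(ℝ, E) 𝓘(ℝ, E) e.symm p
  have hJ : Function.Injective J := by
    have h1 : mfderiv 𝓘(ℝ, E) 𝓘(ℝ, E) (e ∘ e.symm) p =
        (mfderiv 𝓘(ℝ, E) 𝓘(ℝ, E) e (e.symm p)).comp (mfderiv 𝓘(ℝ, E) 𝓘(ℝ, E) e.symm p) := by
      apply mfderiv_comp
      · have : ContMDiffAt 𝓘(ℝ, E) 𝓘(ℝ, E) ∞ e (e.symm p) := by
          apply contMDiffAt_extChartAt'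
          rw [hsx]
          rw [he, extChartAt_source] at hxs
          exact hxs
        exact this.mdifferentiableAt (by simp)
      · exact mdiff_symm x₀ hpt
    have h2 : (e ∘ e.symm) =ᶠ[𝓝 p] id := by
      filter_upwards [(isOpen_extChartAt_target x₀).mem_nhds hpt] with q hq
      exact e.right_inv hq
    rw [h2.mfderiv_eq] at h1
    have h3 : mfderiv 𝓘(ℝ, E) 𝓘(ℝ, E) (id : E → E) p = ContinuousLinearMap.id ℝ E := mfderiv_id
    rw [h3] at h1
    intro u v huv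
    have h6 : u = (mfderiv 𝓘(ℝ, E) 𝓘(ℝ, E) e (e.symm p)) (J u) := DFunLike.congr_fun h1 u
    have h7 : v = (mfderiv 𝓘(ℝ, E) 𝓘(ℝ, E) e (e.symm p)) (J v) := DFunLike.congr_fun h1 v
    rw [h6, h7, huv]
  symm
  apply det_eq_of_conj hJ
  have hgp : g (e.symm p) ∈ e.source := by rw [hsx, hx]; exact hxs
  have hcp : ch x₀ g p = p := by
    show e (g (e.symm p)) = p
    rw [hsx, hx]
  ext v
  have h1 := tangent_ch x₀ hg hpt hgp v
  have h2 : J (fderiv ℝ (ch x₀ g) p v) = dE E g x (J v) := by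
    have h3 := congrArg (fun z : TangentBundle 𝓘(ℝ, E) P => (z.2 : E)) h1
    have h4 : (ds x₀ (ch x₀ g p) (fderiv ℝ (ch x₀ g) p v) : E) = J (fderiv ℝ (ch x₀ g) p v) := by
      rw [hcp]; rfl
    have h5 : (mfderiv 𝓘(ℝ, E) 𝓘(ℝ, E) g (e.symm p) (ds x₀ p v) : E) = dE E g x (J v) := by
      rw [hsx]; rfl
    exact h4.symm.trans (h3.trans h5)
  have h3 : (chartForm 𝓘(ℝ, E) β x₀ p : E →L[ℝ] ℝ) v = bE β x (J v) := by
    have h4 : (chartForm 𝓘(ℝ, E) β x₀ p : E →L[ℝ] ℝ) v = bE β (e.symm p) (J v) := rfl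
    rw [h4, hsx]
  have h4 : J (RF.Rc Fl x₀ p) = rE R x := by
    have h5 := h.tangent_Rc x₀ hpt
    have h6 : J (RF.Rc Fl x₀ p) = rE R (e.symm p) := h5
    rw [h6, hsx]
  show Am β R g x (J v) = J (fderiv ℝ (ch x₀ g) p v - v +
    (chartForm 𝓘(ℝ, E) β x₀ p : E →L[ℝ] ℝ) v • RF.Rc Fl x₀ p)
  rw [Am_apply, map_add, map_sub, map_smul, h2, h3, h4]

/-- **Continuity of the determinant.** -/
lemma continuousAt_Ac (hβ : SmoothForm β) {g : P → P} (hg : ContMDiff 𝓘(ℝ, E) 𝓘(ℝ, E) ∞ g)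
    {Fl : P → ℝ → P} (h : RF β R Fl) {x₀ : P} (hx₀ : g x₀ = x₀) :
    ContinuousAt (fun p => (Ac β Fl g x₀ p).det) (extChartAt 𝓘(ℝ, E) x₀ x₀) := by
  set e := extChartAt 𝓘(ℝ, E) x₀ with he
  have hpt : e x₀ ∈ e.target := mem_extChartAt_target x₀
  have hsx : e.symm (e x₀) = x₀ := extChartAt_to_inv x₀
  have h1 : ContinuousAt (fderiv ℝ (ch x₀ g)) (e x₀) := by
    refine ((ch_smooth x₀ hg hpt ?_).fderiv_right (m := 0) (by simp)).continuousAt
    rw [← he, hsx, hx₀]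
    exact mem_extChartAt_source x₀
  have h2 : ContinuousAt (fun p => (chartForm 𝓘(ℝ, E) β x₀ p : E →L[ℝ] ℝ)) (e x₀) :=
    ((contDiffOn_chartForm hβ x₀).contDiffAt
      ((isOpen_extChartAt_target x₀).mem_nhds hpt)).continuousAt
  have h3 := h.continuousAt_Rc x₀ hpt
  have h4 : ContinuousAt (fun p => Ac β Fl g x₀ p) (e x₀) := by
    have h5 : ContinuousAt (fun p => (chartForm 𝓘(ℝ, E) β x₀ p : E →L[ℝ] ℝ).smulRight
        (RF.Rc Fl x₀ p)) (e x₀) := by
      have h6 : Continuous (fun q : (E →L[ℝ] ℝ) × E => q.1.smulRight q.2) :=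
        (ContinuousLinearMap.smulRightL ℝ E E).continuous₂
      exact ContinuousAt.comp (f := fun p => ((chartForm 𝓘(ℝ, E) β x₀ p : E →L[ℝ] ℝ),
        RF.Rc Fl x₀ p)) h6.continuousAt (h2.prodMk h3)
    exact (h1.sub continuousAt_const).add h5
  exact ContinuousLinearMap.continuous_det.continuousAt.comp h4

/-- the fixed points with a given determinant form a closed set -/
lemma isClosed_fixDet [T2Space P] (hβ : SmoothForm β) {g : P → P}
    (hg : ContMDiff 𝓘(ℝ, E) 𝓘(ℝ, E) ∞ g) {Fl : P → ℝ → P} (h : RF β R Fl) (d : ℝ) :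
    IsClosed {x | g x = x ∧ (Am β R g x).det = d} := by
  apply isClosed_of_closure_subset
  intro y hy
  have hfix : IsClosed {x | g x = x} := isClosed_eq hg.continuous continuous_id
  have hgy : g y = y := by
    have h1 : closure {x | g x = x ∧ (Am β R g x).det = d} ⊆ {x | g x = x} :=
      closure_minimal (fun x hx => hx.1) hfix
    exact h1 hy
  refine ⟨hgy, ?_⟩
  have h1 : ContinuousAt (fun z => (Ac β Fl g y (extChartAt 𝓘(ℝ, E) y z)).det) y :=
    ContinuousAt.comp (f := fun z => extChartAt 𝓘(ℝ, E) y z) (continuousAt_Ac hβ hg h hgy)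
      (continuousAt_extChartAt y)
  have h2 : ∃ᶠ z in 𝓝 y, (Ac β Fl g y (extChartAt 𝓘(ℝ, E) y z)).det ∈ ({d} : Set ℝ) := by
    have h3 := (mem_closure_iff_frequently.1 hy).and_eventually
      (extChartAt_source_mem_nhds (I := 𝓘(ℝ, E)) y)
    refine h3.mono fun z hz => ?_
    rw [mem_singleton_iff, det_Ac hg h y hz.1.1 hz.2]
    exact hz.1.2
  have h3 := isClosed_singleton.mem_of_frequently_of_tendsto h2 h1
  beta_reduce at h3
  rw [mem_singleton_iff, det_Ac hg h y hgy (mem_extChartAt_source y)] at h3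
  exact h3

/-- **Local return.** Let `Z` be an invariant set and `Ψ` a smooth map vanishing on it. Near a point
`y ∈ Z` at which the kernel of `DΨ` is spanned by the Reeb field, `Z` is an arc of the orbit of `y`. -/
lemma local_return [T2Space P] [SigmaCompactSpace P] {Fl : P → ℝ → P} (h : RF β R Fl) {Z : Set P}
    (hZ : ∀ z ∈ Z, ∀ t, Fl z t ∈ Z) {V : Type*} [NormedAddCommGroup V] [NormedSpace ℝ V]
    [FiniteDimensional ℝ V] {Ψ : P → V} (hΨ : ContMDiff 𝓘(ℝ, E) 𝓘(ℝ, V) ∞ Ψ)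
    (hΨZ : ∀ z ∈ Z, Ψ z = 0) {y : P} (hy : y ∈ Z) (hR : rE R y ≠ 0)
    (hker : ∀ u : E, (mfderiv 𝓘(ℝ, E) 𝓘(ℝ, V) Ψ y : E →L[ℝ] V) u = 0 → ∃ a : ℝ, u = a • rE R y) :
    ∀ᶠ z in 𝓝 y, z ∈ Z → ∃ s : ℝ, |s| < 1 / 3 ∧ Fl z s = y := by
  have hcont : Continuous (fun p : P × ℝ => Fl p.1 p.2) := h.smooth.continuous
  obtain ⟨l, hl⟩ : ∃ l : E →L[ℝ] ℝ, l (rE R y) = 1 := by
    obtain ⟨l, hl⟩ := SeparatingDual.exists_eq_one (R := ℝ) hR
    exact ⟨l, hl⟩
  obtain ⟨f, hf, hfl⟩ := exists_function y l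
  have hG : ContMDiff 𝓘(ℝ, E) 𝓘(ℝ, ℝ × V) ∞ (fun z => (f z, Ψ z)) := hf.prodMk_space hΨ
  have hinj : Function.Injective
      (mfderiv 𝓘(ℝ, E) 𝓘(ℝ, ℝ × V) (fun z => (f z, Ψ z)) y) := by
    have h1 : HasMFDerivAt 𝓘(ℝ, E) 𝓘(ℝ, ℝ) f y
        (mfderiv 𝓘(ℝ, E) 𝓘(ℝ, ℝ) f y : E →L[ℝ] ℝ) :=
      (hf.mdifferentiableAt (by simp)).hasMFDerivAt
    have h2 : HasMFDerivAt 𝓘(ℝ, E) 𝓘(ℝ, V) Ψ y
        (mfderiv 𝓘(ℝ, E) 𝓘(ℝ, V) Ψ y : E →L[ℝ] V) :=
      (hΨ.mdifferentiableAt (by simp)).hasMFDerivAt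
    have h3 : HasMFDerivAt 𝓘(ℝ, E) 𝓘(ℝ, ℝ × V) (fun z => (f z, Ψ z)) y
        ((mfderiv 𝓘(ℝ, E) 𝓘(ℝ, ℝ) f y : E →L[ℝ] ℝ).prod
          (mfderiv 𝓘(ℝ, E) 𝓘(ℝ, V) Ψ y : E →L[ℝ] V)) :=
      ⟨h1.1.prodMk h2.1, h1.2.prodMk h2.2⟩
    rw [h3.mfderiv, injective_iff_map_eq_zero]
    intro u hu
    have h4 : (mfderiv 𝓘(ℝ, E) 𝓘(ℝ, ℝ) f y : E →L[ℝ] ℝ) u = (0:ℝ) := congrArg Prod.fst hu
    have h5 : (mfderiv 𝓘(ℝ, E) 𝓘(ℝ, V) Ψ y : E →L[ℝ] V) u = 0 := congrArg Prod.snd hu
    obtain ⟨a, ha⟩ := hker u h5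
    have h6 : l u = 0 := (hfl u).symm.trans h4
    have h7 : l u = a := by rw [ha, map_smul, hl, smul_eq_mul, mul_one]
    have h8 : a = 0 := by rw [← h7, h6]
    have h9 : (show E from u) = 0 := by
      show (show E from u) = 0
      rw [show (show E from u) = a • rE R y from ha, h8, zero_smul]
    exact h9
  obtain ⟨U, hU, hUinj⟩ := locally_injective hG hinj
  have hder : HasDerivAt (fun s => f (Fl y s)) 1 0 := by
    have h2 := hasDerivAt_along (W := R) (h.int y 0) hf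
    refine h2.congr_deriv ?_
    have e : Fl y 0 = y := h.zero y
    show (mfderiv 𝓘(ℝ, E) 𝓘(ℝ, ℝ) f (Fl y 0) : E →L[ℝ] ℝ) (rE (E := E) R (Fl y 0)) = 1
    rw [e]
    exact (hfl _).trans hl
  have hcy : Continuous (fun s => Fl y s) := hcont.comp (continuous_const.prodMk continuous_id)
  have hUy : ∀ᶠ s in 𝓝 (0:ℝ), Fl y s ∈ interior U := by
    apply hcy.continuousAt.preimage_mem_nhds
    show interior U ∈ 𝓝 (Fl y 0)
    rw [h.zero]
    exact interior_mem_nhds.2 hU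
  obtain ⟨δ, hδ, hδ3, hδU, hδ1, hδ2⟩ : ∃ δ > (0:ℝ), δ < 1 / 3 ∧
      (∀ s ∈ Icc (-δ) δ, Fl y s ∈ interior U) ∧ f y < f (Fl y δ) ∧ f (Fl y (-δ)) < f y := by
    obtain ⟨r, hr, hrU⟩ := Metric.eventually_nhds_iff.1 hUy
    have hlin := hder.isLittleO.def (c := 1 / 2) (by norm_num)
    obtain ⟨r', hr', hr'U⟩ := Metric.eventually_nhds_iff.1 hlin
    set δ := min (min (r / 2) (r' / 2)) (1 / 4) with hδdef
    have hδ : 0 < δ := by positivity
    have hδr : δ < r := lt_of_le_of_lt ((min_le_left _ _).trans (min_le_left _ _)) (by linarith)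
    have hδr' : δ < r' := lt_of_le_of_lt ((min_le_left _ _).trans (min_le_right _ _)) (by linarith)
    have hδ4 : δ ≤ 1 / 4 := min_le_right _ _
    refine ⟨δ, hδ, by linarith, ?_, ?_, ?_⟩
    · intro s hs
      apply hrU
      rw [Real.dist_eq, sub_zero, abs_lt]
      constructor <;> linarith [hs.1, hs.2]
    · have h1 := hr'U (y := δ) (by rw [Real.dist_eq, sub_zero, abs_of_pos hδ]; exact hδr')
      simp only [h.zero, sub_zero, smul_eq_mul, mul_one, Real.norm_eq_abs, abs_of_pos hδ] at h1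
      have h2 := (abs_le.1 h1).1
      linarith
    · have h1 := hr'U (y := -δ) (by
        rw [Real.dist_eq, sub_zero, abs_neg, abs_of_pos hδ]; exact hδr')
      simp only [h.zero, sub_zero, smul_eq_mul, mul_one, Real.norm_eq_abs, abs_neg,
        abs_of_pos hδ] at h1
      have h2 := (abs_le.1 h1).2
      linarith
  have hfc : Continuous f := hf.continuous
  have hc1 : Continuous (fun z => f (Fl z δ)) :=
    hfc.comp (hcont.comp (continuous_id.prodMk continuous_const))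
  have hc2 : Continuous (fun z => f (Fl z (-δ))) :=
    hfc.comp (hcont.comp (continuous_id.prodMk continuous_const))
  have ht : ∀ᶠ z in 𝓝 y, ∀ s ∈ Icc (-δ) δ, Fl z s ∈ interior U := by
    apply isCompact_Icc.eventually_forall_of_forall_eventually
    intro s hs
    exact hcont.continuousAt.preimage_mem_nhds (isOpen_interior.mem_nhds (hδU s hs))
  filter_upwards [ht, hc1.continuousAt.eventually (lt_mem_nhds hδ1),
    hc2.continuousAt.eventually (gt_mem_nhds hδ2)] with z hz1 hz2 hz3 hzZ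
  have hcz : ContinuousOn (fun s => f (Fl z s)) (Icc (-δ) δ) :=
    (hfc.comp (hcont.comp (continuous_const.prodMk continuous_id))).continuousOn
  obtain ⟨s, hs, hs'⟩ := intermediate_value_Icc (by linarith) hcz ⟨hz3.le, hz2.le⟩
  refine ⟨s, ?_, ?_⟩
  · rw [abs_lt]
    constructor <;> linarith [hs.1, hs.2]
  · apply hUinj (interior_subset (hz1 s hs)) (mem_of_mem_nhds hU)
    exact Prod.ext hs' ((hΨZ _ (hZ z hzZ s)).trans (hΨZ y hy).symm)

/-- **Nondegenerate fixed points of strict contactomorphisms lie on closed Reeb orbits.** -/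
theorem exists_period [T2Space P] [CompactSpace P] (c : CD β R) {g : P → P}
    (hg : ContMDiff 𝓘(ℝ, E) 𝓘(ℝ, E) ∞ g) (hs : Strict β g) {Fl : P → ℝ → P} (h : RF β R Fl)
    {x : P} (hx : g x = x) (hnd : Ndg β g x) : ∃ T : ℝ, 0 < T ∧ ∀ t, Fl x (t + T) = Fl x t := by
  obtain ⟨n, e, he, -, heinj⟩ := exists_embedding_euclidean_of_compact (I := 𝓘(ℝ, E)) (M := P)
  set K : Set P := {y | g y = y ∧ (Am β R g y).det = (Am β R g x).det} with hK
  have hKc : IsCompact K := (isClosed_fixDet c.contact.smooth hg h _).isCompact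
  have hKinv : ∀ z ∈ K, ∀ t, Fl z t ∈ K := by
    intro z hz t
    refine ⟨?_, ?_⟩
    · rw [reeb_conj c hg hs h, hz.1]
    · rw [det_flow c hg hs h hz.1, hz.2]
  have hd0 : (Am β R g x).det ≠ 0 := (det_Am_ne_zero c hs hx).2 hnd
  refine exists_return h.add hKc hKinv ?_ (show x ∈ K from ⟨hx, rfl⟩)
  intro y hy
  have hyn : Ndg β g y := (det_Am_ne_zero c hs hy.1).1 (by rw [hy.2]; exact hd0)
  have hRy : rE R y ≠ 0 := by
    intro h0
    have h1 := bE_rE c y
    rw [h0, map_zero] at h1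
    exact zero_ne_one h1
  refine local_return h hKinv (Ψ := fun z => e (g z) - e z) ((he.comp hg).sub he)
    (fun z hz => by rw [hz.1, sub_self]) hy hRy ?_
  intro u hu
  refine ⟨bE β y u, ker_of_ndg c hg hs hy.1 hyn ?_⟩
  have h1 : HasMFDerivAt 𝓘(ℝ, E) 𝓘(ℝ, EuclideanSpace ℝ (Fin n)) e y
      (mfderiv 𝓘(ℝ, E) 𝓘(ℝ, EuclideanSpace ℝ (Fin n)) e y) :=
    (he.mdifferentiableAt (by simp)).hasMFDerivAt
  have h2 : HasMFDerivAt 𝓘(ℝ, E) 𝓘(ℝ, EuclideanSpace ℝ (Fin n)) (e ∘ g) y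
      ((mfderiv 𝓘(ℝ, E) 𝓘(ℝ, EuclideanSpace ℝ (Fin n)) e (g y)).comp
        (mfderiv 𝓘(ℝ, E) 𝓘(ℝ, E) g y)) :=
    HasMFDerivAt.comp y (he.mdifferentiableAt (by simp)).hasMFDerivAt
      (hg.mdifferentiableAt (by simp)).hasMFDerivAt
  have h3 := (h2.sub h1).mfderiv
  have h4 := DFunLike.congr_fun h3 u
  let A : P → E →L[ℝ] EuclideanSpace ℝ (Fin n) := fun z =>
    mfderiv 𝓘(ℝ, E) 𝓘(ℝ, EuclideanSpace ℝ (Fin n)) e z
  have h5 : A (g y) (dE E g y u) - A y u = 0 := h4.symm.trans hu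
  rw [hy.1, sub_eq_zero] at h5
  exact heinj y h5

end Pool.Agent.X167.W
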