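import Mathlib
import Pool.Agent.W671.WU11
import Pool.Agent.X167.W.Com

/-! Strict contactomorphisms mapping a Reeb orbit to itself. -/

open scoped Topology ContDiff Manifold
open Set Pool.Agent.Helper186

noncomputable section

namespace Pool.Agent.X167.W

set_option linter.unusedSectionVars false

universe u

open Pool.Agent.H826R2 Pool.Agent.H826R2.WStmt Pool.Agent.W671.RStmt Pool.Agent.W671

variable {E : Type u} [NormedAddCommGroup E] [NormedSpace ℝ E] [FiniteDimensional ℝ E]
  {M : Type*} [TopologicalSpace M] [ChartedSpace E M] [IsManifold 𝓘(ℝ, E) ∞ M]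

theorem exists_periodic_of_symmetry [T2Space M] [CompactSpace M]
    (α : M → Cov E) (hα : WStmt.IsContact α) (R : M → E) (hR : WStmt.IsReeb α R)
    (Φ : M → ℝ → M) (hΦ : IsFlow R Φ)
    (g : M → M) (hg : ContMDiff 𝓘(ℝ, E) 𝓘(ℝ, E) ∞ g) (hgα : WStmt.pull g α = α)
    (x : M) (s : ℝ) (hx : g x = Φ x s)
    (hnd : ∀ u : E, ev (α x) u = 0 →
      D (E := E) (E' := E) g x u = D (E := E) (E' := E) (fun y => Φ y s) x u → u = 0) :
    ∃ T : ℝ, IsPeriodicOrbit R (Φ x) T := by
  have : IsManifold 𝓘(ℝ, E) 1 M := IsManifold.of_le (n := ∞) (by simp)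
  have c : Wein.CD (toForm α) (fun x => (R x : TangentSpace 𝓘(ℝ, E) x)) := ⟨hα.toWein, hR.toWein⟩
  have hRF := WU.RF.of c hΦ.zero hΦ.integral
  have hgs : Strict (toForm α) g := by
    intro y u
    have h := congrFun hgα y
    have h2 := congrArg (fun a : Cov E => ev a (u : E)) h
    exact h2
  have hFs := hRF.smooth_t (-s)
  have hFst : Strict (toForm α) (fun x => Φ x (-s)) := hRF.strict (-s)
  have hcomp : ∀ y, dE E ((fun x => Φ x (-s)) ∘ g) y =
      (dE E (fun x => Φ x (-s)) (g y)).comp (dE E g y) := fun y =>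
    mfderiv_comp y (hFs.mdifferentiableAt (by simp)) (hg.mdifferentiableAt (by simp))
  obtain ⟨T, hT, hper⟩ := exists_period c (g := (fun x => Φ x (-s)) ∘ g) (hFs.comp hg)
    (fun y u => by
      have h1 : (mfderiv 𝓘(ℝ, E) 𝓘(ℝ, E) ((fun x => Φ x (-s)) ∘ g) y u : E) =
          dE E (fun x => Φ x (-s)) (g y) (dE E g y u) := DFunLike.congr_fun (hcomp y) u
      have h2 := hFst (g y) (dE E g y u)
      have h3 := hgs y u
      have h4 : toForm α ((fun x => Φ x (-s)) (g y)) (dE E (fun x => Φ x (-s)) (g y) (dE E g y u)) =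
          toForm α y u := h2.trans h3
      rw [← h1] at h4
      exact h4)
    hRF (x := x)
    (by
      show Φ (g x) (-s) = x
      rw [hx, ← hRF.add, add_neg_cancel, hRF.zero])
    (by
      intro u hu1 hu2
      apply hnd u hu1
      rw [hcomp] at hu2
      have hu3 : dE E (fun x => Φ x (-s)) (g x) (dE E g x u) = u := hu2
      -- the derivative of the flow
      have h5 : dE E ((fun x => Φ x s) ∘ fun x => Φ x (-s)) (g x) =
          (dE E (fun x => Φ x s) (Φ (g x) (-s))).comp (dE E (fun x => Φ x (-s)) (g x)) :=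
        mfderiv_comp _ ((hRF.smooth_t s).mdifferentiableAt (by simp))
          (hFs.mdifferentiableAt (by simp))
      have h6 : ((fun x => Φ x s) ∘ fun x => Φ x (-s)) = id := by
        ext1 y
        show Φ (Φ y (-s)) s = y
        rw [← hRF.add, neg_add_cancel, hRF.zero]
      have h7 : dE E (id : M → M) (g x) = ContinuousLinearMap.id ℝ E := mfderiv_id
      rw [h6, h7] at h5
      have h8 := DFunLike.congr_fun h5 (dE E g x u)
      have h9 : dE E g x u = dE E (fun x => Φ x s) (Φ (g x) (-s))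
          (dE E (fun x => Φ x (-s)) (g x) (dE E g x u)) := h8
      have h10 : Φ (g x) (-s) = x := by rw [hx, ← hRF.add, add_neg_cancel, hRF.zero]
      rw [hu3, h10] at h9
      exact h9)
  exact ⟨T, hT, hΦ.integral x, hper⟩

end Pool.Agent.X167.W
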