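import Mathlib
import Pool.Agent.X167.W.Com

/-! Nondegenerate critical points of first integrals of Reeb flows. -/

open scoped Topology ContDiff Manifold
open Set Filter Bundle Pool.Agent.Helper186 Pool.Agent.H826R2.Wein Pool.Agent.W671.WU

noncomputable section

namespace Pool.Agent.X167.W

set_option linter.unusedSectionVars false

universe u

variable {E : Type u} [NormedAddCommGroup E] [NormedSpace ℝ E] [FiniteDimensional ℝ E]
  {P : Type*} [TopologicalSpace P] [ChartedSpace E P] [IsManifold 𝓘(ℝ, E) ∞ P]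
  {β : (x : P) → TangentSpace 𝓘(ℝ, E) x →L[ℝ] ℝ} {R : (x : P) → TangentSpace 𝓘(ℝ, E) x}

/-- the flow of a strict contact field as a Reeb-type flow structure -/
lemma rf_of_hf [T2Space P] {c : CD β R} {f : P → ℝ} (F : HF c f) : RF β (c.X f) F.Fl :=
  ⟨F.zero, F.int, F.add, F.smooth_flow, F.strict⟩

/-- flows of contact fields exist on closed manifolds -/
lemma exists_hf [T2Space P] [CompactSpace P] (c : CD β R) {f : P → ℝ}
    (hf : ContMDiff 𝓘(ℝ, E) 𝓘(ℝ, ℝ) ∞ f) (hfR : ∀ x, dForm 𝓘(ℝ, E) f x (R x) = 0) :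
    Nonempty (HF c f) := by
  choose Fl hF0 hF using fun x : P => complete_of_compact (c.smooth_X hf) isCompact_univ
    (fun y hy => absurd (mem_univ y) hy) x
  exact ⟨⟨Fl, hF0, hF, hf, hfR⟩⟩

lemma X_eq_zero (c : CD β R) {f : P → ℝ} {x : P} (hfx : f x = 0)
    (hdf : ∀ v, dForm 𝓘(ℝ, E) f x v = 0) : c.X f x = 0 := by
  apply HB_nondeg c.contact c.reeb
  intro v
  rw [c.X_spec, hfx, hdf, zero_mul, sub_zero]

/-- zeros of the field are fixed -/
lemma fixed_of_zero [T2Space P] {c : CD β R} {f : P → ℝ} (F : HF c f) {x : P}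
    (hx : c.X f x = 0) (t : ℝ) : F.Fl x t = x := by
  have : IsManifold 𝓘(ℝ, E) 1 P := IsManifold.of_le (n := ∞) (by simp)
  have h1 : IsMIntegralCurve (I := 𝓘(ℝ, E)) (fun _ : ℝ => x) (c.X f) := by
    intro s
    have h2 : HasMFDerivAt 𝓘(ℝ, ℝ) 𝓘(ℝ, E) (fun _ : ℝ => x) s (0 : ℝ →L[ℝ] E) :=
      hasMFDerivAt_const x s
    refine h2.congr_mfderiv ?_
    rw [hx]
    refine ContinuousLinearMap.ext fun (r : ℝ) => ?_
    show (0:E) = r • (0:E)
    rw [smul_zero]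
  have h2 : F.Fl x = fun _ : ℝ => x := by
    refine isMIntegralCurve_Ioo_eq_of_contMDiff_boundaryless (t₀ := 0)
      ((c.smooth_X F.smooth).of_le (by simp)) (F.int x) h1 ?_
    simp [F.zero]
  exact congrFun h2 t

/-- the derivative of a map at a fixed point, in the preferred chart -/
lemma dE_eq_fderiv {g : P → P} (hg : ContMDiff 𝓘(ℝ, E) 𝓘(ℝ, E) ∞ g) {x : P} (hx : g x = x)
    (u : E) : dE E g x u = fderiv ℝ (ch x g) (extChartAt 𝓘(ℝ, E) x x) u := by
  set e := extChartAt 𝓘(ℝ, E) x with he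
  have hpt : e x ∈ e.target := mem_extChartAt_target x
  have hsx : e.symm (e x) = x := extChartAt_to_inv x
  have hcp : ch x g (e x) = e x := by
    show e (g (e.symm (e x))) = e x
    rw [hsx, hx]
  have hds : ∀ v : E, (ds x (e x) v : E) = v := fun v => mfderiv_extChartAt_symm_self x v
  have hgp : g (e.symm (e x)) ∈ e.source := by rw [hsx, hx]; exact mem_extChartAt_source x
  have h1 := tangent_ch x hg hpt hgp u
  have h3 := congrArg (fun z : TangentBundle 𝓘(ℝ, E) P => (z.2 : E)) h1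
  have h4 : (ds x (ch x g (e x)) (fderiv ℝ (ch x g) (e x) u) : E) =
      fderiv ℝ (ch x g) (e x) u := by
    rw [hcp]; exact hds _
  have h5 : (mfderiv 𝓘(ℝ, E) 𝓘(ℝ, E) g (e.symm (e x)) (ds x (e x) u) : E) = dE E g x u := by
    have : ∀ (z : P) (w : E), z = x → w = u →
        (mfderiv 𝓘(ℝ, E) 𝓘(ℝ, E) g z w : E) = dE E g x u := by
      rintro _ _ rfl rfl; rfl
    exact this _ _ hsx (hds u)
  exact (h5.symm.trans (h3.symm.trans h4))

/-- **The equation of the contact field in a chart.** -/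
lemma chart_eq [T2Space P] {c : CD β R} {f : P → ℝ} (F : HF c f) (x : P) {p : E}
    (hp : p ∈ (extChartAt 𝓘(ℝ, E) x).target) (v : E) :
    fderiv ℝ (cf x f) p v =
      cf x f p * chartForm 𝓘(ℝ, E) β x p v
      - chartForm 𝓘(ℝ, E) β x p (RF.Rc F.Fl x p) * chartForm 𝓘(ℝ, E) β x p v
      - fderiv ℝ (chartForm 𝓘(ℝ, E) β x) p (RF.Rc F.Fl x p) v
      + fderiv ℝ (chartForm 𝓘(ℝ, E) β x) p v (RF.Rc F.Fl x p) := by
  set e := extChartAt 𝓘(ℝ, E) x with he
  have h1 := (rf_of_hf F).tangent_Rc x hp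
  have h2 := c.X_spec f (e.symm p) (ds x p v)
  have h3 : HB β (e.symm p) (c.X f (e.symm p)) (ds x p v) =
      HB β (e.symm p) (ds x p (RF.Rc F.Fl x p)) (ds x p v) :=
    congrArg (fun w : E => HB β (e.symm p) w (ds x p v)) h1.symm
  rw [h3, HB_apply] at h2
  have h4 := extDer_pullback c.contact.smooth (isOpen_extChartAt_target x)
    (contMDiffOn_extChartAt_symm x) hp (RF.Rc F.Fl x p) v
  have hd : DifferentiableAt ℝ (chartForm 𝓘(ℝ, E) β x) p :=
    ((contDiffOn_chartForm c.contact.smooth x).contDiffAt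
      ((isOpen_extChartAt_target x).mem_nhds hp)).differentiableAt (by simp)
  have h5 : ∀ a b : E, fderiv ℝ (fun q => β (e.symm q) (mfderiv 𝓘(ℝ, E) 𝓘(ℝ, E) e.symm q b)) p a =
      fderiv ℝ (chartForm 𝓘(ℝ, E) β x) p a b := by
    intro a b
    have h5 : HasFDerivAt (fun q => chartForm 𝓘(ℝ, E) β x q b)
        ((ContinuousLinearMap.apply ℝ ℝ b).comp (fderiv ℝ (chartForm 𝓘(ℝ, E) β x) p)) p :=
      (ContinuousLinearMap.apply ℝ ℝ b).hasFDerivAt.comp p hd.hasFDerivAt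
    have h6 := h5.fderiv
    change fderiv ℝ (fun q => chartForm 𝓘(ℝ, E) β x q b) p a = _
    rw [h6]
    rfl
  rw [← he, h5, h5] at h4
  have h6 : fderiv ℝ (cf x f) p v = dForm 𝓘(ℝ, E) f (e.symm p) (ds x p v) :=
    fderiv_cf x F.smooth hp v
  have h7 : chartForm 𝓘(ℝ, E) β x p v = β (e.symm p) (ds x p v) := rfl
  have h8 : chartForm 𝓘(ℝ, E) β x p (RF.Rc F.Fl x p) =
      β (e.symm p) (ds x p (RF.Rc F.Fl x p)) := rfl
  have h9 : extDer 𝓘(ℝ, E) β (e.symm p) (ds x p (RF.Rc F.Fl x p)) (ds x p v) =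
      fderiv ℝ (chartForm 𝓘(ℝ, E) β x) p (RF.Rc F.Fl x p) v -
        fderiv ℝ (chartForm 𝓘(ℝ, E) β x) p v (RF.Rc F.Fl x p) := h4
  rw [h6, h7, h8]
  rw [h9] at h2
  have h10 : cf x f p = f (e.symm p) := rfl
  rw [h10]
  linarith

lemma line_deriv {V : Type*} [NormedAddCommGroup V] [NormedSpace ℝ V] {φ : E → V} {p u : E}
    (h : DifferentiableAt ℝ φ p) :
    HasDerivAt (fun r : ℝ => φ (p + r • u)) (fderiv ℝ φ p u) 0 := by
  have hline : HasDerivAt (fun r : ℝ => p + r • u) u 0 := by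
    have := ((hasDerivAt_id (0:ℝ)).smul_const u).const_add p
    simpa using this
  have h1 : HasFDerivAt φ (fderiv ℝ φ p) (p + (0:ℝ) • u) := by
    rw [zero_smul, add_zero]; exact h.hasFDerivAt
  exact h1.comp_hasDerivAt (0:ℝ) hline

/-- **The Hessian and the linearised field.** Let `x` be a critical point of `f` with `f x = 0`. If the
derivative of the field, in the chart at `x`, vanishes on `u`, so does the Hessian of `f`. -/
lemma hess_eq_zero [T2Space P] {c : CD β R} {f : P → ℝ} (F : HF c f) {x : P} (hfx : f x = 0)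
    (hdf : ∀ v, dForm 𝓘(ℝ, E) f x v = 0) {u : E}
    (hu : HasDerivAt (fun r : ℝ => RF.Rc F.Fl x (extChartAt 𝓘(ℝ, E) x x + r • u)) 0 0) (v : E) :
    fderiv ℝ (fderiv ℝ (cf x f)) (extChartAt 𝓘(ℝ, E) x x) u v = 0 := by
  set e := extChartAt 𝓘(ℝ, E) x with he
  set p₀ := e x with hp₀
  have hpt : p₀ ∈ e.target := mem_extChartAt_target x
  have hsx : e.symm p₀ = x := extChartAt_to_inv x
  have hX0 : RF.Rc F.Fl x p₀ = 0 := by
    have h1 := (rf_of_hf F).tangent_Rc x hpt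
    have h2 : (ds x p₀ (RF.Rc F.Fl x p₀) : E) = RF.Rc F.Fl x p₀ :=
      mfderiv_extChartAt_symm_self x _
    rw [← h2]
    refine h1.trans ?_
    rw [← he, hsx]
    exact X_eq_zero c hfx hdf
  have hcf : ContDiffAt ℝ ∞ (cf x f) p₀ := cf_smooth x F.smooth hpt
  have hb : ContDiffAt ℝ ∞ (chartForm 𝓘(ℝ, E) β x) p₀ :=
    (contDiffOn_chartForm c.contact.smooth x).contDiffAt
      ((isOpen_extChartAt_target x).mem_nhds hpt)
  have hline : HasDerivAt (fun r : ℝ => p₀ + r • u) u 0 := by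
    have := ((hasDerivAt_id (0:ℝ)).smul_const u).const_add p₀
    simpa using this
  have hl0 : p₀ + (0:ℝ) • u = p₀ := by simp
  have hf0 : cf x f p₀ = 0 := by show f (e.symm p₀) = 0; rw [hsx, hfx]
  have hdf0 : ∀ w, fderiv ℝ (cf x f) p₀ w = 0 := fun w =>
    (fderiv_cf_self x F.smooth w).trans (hdf w)
  -- derivatives along the line
  have d1 : HasDerivAt (fun r : ℝ => cf x f (p₀ + r • u)) 0 0 := by
    have h1 : HasFDerivAt (cf x f) (fderiv ℝ (cf x f) p₀) (p₀ + (0:ℝ) • u) := by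
      rw [hl0]; exact (hcf.differentiableAt (by simp)).hasFDerivAt
    have h2 := h1.comp_hasDerivAt (0:ℝ) hline
    rw [hdf0] at h2
    exact h2
  have d2 : HasDerivAt (fun r : ℝ => (chartForm 𝓘(ℝ, E) β x (p₀ + r • u) : E →L[ℝ] ℝ))
      (fderiv ℝ (chartForm 𝓘(ℝ, E) β x) p₀ u) 0 := by
    have h1 : HasFDerivAt (chartForm 𝓘(ℝ, E) β x) (fderiv ℝ (chartForm 𝓘(ℝ, E) β x) p₀)
        (p₀ + (0:ℝ) • u) := by
      rw [hl0]; exact (hb.differentiableAt (by simp)).hasFDerivAt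
    exact h1.comp_hasDerivAt (0:ℝ) hline
  let b : E → E →L[ℝ] ℝ := chartForm 𝓘(ℝ, E) β x
  have hb' : ContDiffAt ℝ ∞ b p₀ := hb
  let b' : E → E →L[ℝ] E →L[ℝ] ℝ := fderiv ℝ b
  have d3 : HasDerivAt (fun r : ℝ => b' (p₀ + r • u)) (fderiv ℝ b' p₀ u) 0 := by
    exact line_deriv ((hb'.fderiv_right (m := ∞) (by simp)).differentiableAt (by simp))
  have d4 : HasDerivAt (fun r : ℝ => fderiv ℝ (cf x f) (p₀ + r • u) v)
      (fderiv ℝ (fderiv ℝ (cf x f)) p₀ u v) 0 := by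
    have h1 : HasFDerivAt (fderiv ℝ (cf x f)) (fderiv ℝ (fderiv ℝ (cf x f)) p₀)
        (p₀ + (0:ℝ) • u) := by
      rw [hl0]
      exact ((hcf.fderiv_right (m := ∞) (by simp)).differentiableAt (by simp)).hasFDerivAt
    have h2 := h1.comp_hasDerivAt (0:ℝ) hline
    exact h2.clm_apply (hasDerivAt_const (0:ℝ) v) |>.congr_deriv (by simp)
  have d2v : HasDerivAt (fun r : ℝ => chartForm 𝓘(ℝ, E) β x (p₀ + r • u) v)
      (fderiv ℝ (chartForm 𝓘(ℝ, E) β x) p₀ u v) 0 :=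
    (d2.clm_apply (hasDerivAt_const (0:ℝ) v)).congr_deriv (by simp)
  have d5 : HasDerivAt (fun r : ℝ => cf x f (p₀ + r • u) *
      chartForm 𝓘(ℝ, E) β x (p₀ + r • u) v) 0 0 := by
    refine (d1.mul d2v).congr_deriv ?_
    rw [hl0, hf0]; ring
  have d6 : HasDerivAt (fun r : ℝ => chartForm 𝓘(ℝ, E) β x (p₀ + r • u)
      (RF.Rc F.Fl x (p₀ + r • u))) 0 0 := by
    refine (d2.clm_apply hu).congr_deriv ?_
    rw [hl0, hX0]; simp
  have d7 : HasDerivAt (fun r : ℝ => chartForm 𝓘(ℝ, E) β x (p₀ + r • u)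
      (RF.Rc F.Fl x (p₀ + r • u)) * chartForm 𝓘(ℝ, E) β x (p₀ + r • u) v) 0 0 := by
    refine (d6.mul d2v).congr_deriv ?_
    rw [hl0, hX0]; simp
  have d8 : HasDerivAt (fun r : ℝ => b' (p₀ + r • u)
      (RF.Rc F.Fl x (p₀ + r • u)) v) 0 0 := by
    refine ((d3.clm_apply hu).clm_apply (hasDerivAt_const (0:ℝ) v)).congr_deriv ?_
    rw [hl0, hX0]; simp
  have d9 : HasDerivAt (fun r : ℝ => b' (p₀ + r • u) v
      (RF.Rc F.Fl x (p₀ + r • u))) 0 0 := by
    refine ((d3.clm_apply (hasDerivAt_const (0:ℝ) v)).clm_apply hu).congr_deriv ?_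
    rw [hl0, hX0]; simp
  have d10 := ((d5.sub d7).sub d8).add d9
  have hev : ∀ᶠ r : ℝ in 𝓝 0, p₀ + r • u ∈ e.target := by
    have h1 : ContinuousAt (fun r : ℝ => p₀ + r • u) 0 := hline.continuousAt
    apply h1.preimage_mem_nhds
    rw [hl0]
    exact (isOpen_extChartAt_target x).mem_nhds hpt
  have d11 : HasDerivAt (fun r : ℝ => fderiv ℝ (cf x f) (p₀ + r • u) v) (0 - 0 - 0 + 0) 0 := by
    refine d10.congr_of_eventuallyEq ?_
    filter_upwards [hev] with r hr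
    exact chart_eq F x hr v
  have := d4.unique d11
  rw [this]; ring

/-- If the derivatives of the time `ε n` maps fix `u`, the linearised field vanishes on `u`. -/
lemma rc_deriv_zero [T2Space P] {c : CD β R} {f : P → ℝ} (F : HF c f) {x : P}
    (hfix : ∀ t, F.Fl x t = x) {u : E} {ε : ℕ → ℝ} (hε : Tendsto ε atTop (𝓝 0))
    (hε0 : ∀ n, ε n ≠ 0) (hu : ∀ n, dE E (fun y => F.Fl y (ε n)) x u = u) :
    HasDerivAt (fun r : ℝ => RF.Rc F.Fl x (extChartAt 𝓘(ℝ, E) x x + r • u)) 0 0 := by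
  have h := rf_of_hf F
  set e := extChartAt 𝓘(ℝ, E) x with he
  set p₀ := e x with hp₀
  have hpt : p₀ ∈ e.target := mem_extChartAt_target x
  have hsx : e.symm p₀ = x := extChartAt_to_inv x
  have hmem : ∀ t, F.Fl (e.symm p₀) t ∈ e.source := by
    intro t
    rw [hsx, hfix]
    exact mem_extChartAt_source x
  let H : E × ℝ → E := RF.H F.Fl x
  have hH : ContDiffAt ℝ ∞ H (p₀, 0) := h.smooth_H x (q := (p₀, 0)) hpt (hmem 0)
  let H' : E × ℝ → (E × ℝ →L[ℝ] E) := fderiv ℝ H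
  have hH' : DifferentiableAt ℝ H' (p₀, 0) :=
    (hH.fderiv_right (m := ∞) (by simp)).differentiableAt (by simp)
  have hsymm : fderiv ℝ H' (p₀, 0) (u, 0) (0, 1) = fderiv ℝ H' (p₀, 0) (0, 1) (u, 0) := by
    have := hH.isSymmSndFDerivAt (by
      simp only [minSmoothness_of_isRCLikeNormedField]; exact ENat.LEInfty.out)
    exact this (u, 0) (0, 1)
  have h1 : HasDerivAt (fun r : ℝ => H' ((p₀, 0) + r • (u, 0)) (0, 1))
      (fderiv ℝ H' (p₀, 0) (u, 0) (0, 1)) 0 := by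
    have h2 := line_deriv (u := ((u, 0) : E × ℝ)) hH'
    exact (h2.clm_apply (hasDerivAt_const (0:ℝ) ((0, 1) : E × ℝ))).congr_deriv (by simp)
  have h3 : HasDerivAt (fun t : ℝ => H' ((p₀, 0) + t • (0, 1)) (u, 0))
      (fderiv ℝ H' (p₀, 0) (0, 1) (u, 0)) 0 := by
    have h2 := line_deriv (u := ((0, 1) : E × ℝ)) hH'
    exact (h2.clm_apply (hasDerivAt_const (0:ℝ) ((u, 0) : E × ℝ))).congr_deriv (by simp)
  -- the second derivative vanishes
  have h4 : ∀ t : ℝ, H' ((p₀, 0) + t • (0, 1)) (u, 0) = dE E (fun y => F.Fl y t) x u := by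
    intro t
    have h5 := h.fderiv_ch_eq x hpt (hmem t)
    have h6 := DFunLike.congr_fun h5 u
    rw [dE_eq_fderiv (F.smooth_t t) (hfix t), h6]
    have e1 : ((p₀, (0:ℝ)) + t • ((0, 1) : E × ℝ)) = (p₀, t) := by ext <;> simp
    rw [e1]
    rfl
  have h0 : H' ((p₀, 0) + (0:ℝ) • (0, 1)) (u, 0) = u := by
    rw [h4]
    have e1 : (fun y : P => F.Fl y 0) = id := by ext1 y; exact F.zero y
    rw [e1]
    have e2 : dE E (id : P → P) x = ContinuousLinearMap.id ℝ E := mfderiv_id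
    rw [e2]
    rfl
  have h5 : fderiv ℝ H' (p₀, 0) (0, 1) (u, 0) = 0 := by
    have h6 := hasDerivAt_iff_tendsto_slope_zero.1 h3
    have h7 : Tendsto ε atTop (𝓝[≠] 0) :=
      tendsto_nhdsWithin_iff.2 ⟨hε, Filter.Eventually.of_forall fun n => hε0 n⟩
    have h8 := h6.comp h7
    have h9 : ((fun t : ℝ => t⁻¹ • (H' ((p₀, 0) + (0 + t) • (0, 1)) (u, 0) -
        H' ((p₀, 0) + (0:ℝ) • (0, 1)) (u, 0))) ∘ ε) = fun _ => (0 : E) := by
      ext1 n
      show (ε n)⁻¹ • (H' ((p₀, 0) + (0 + ε n) • (0, 1)) (u, 0) -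
        H' ((p₀, 0) + (0:ℝ) • (0, 1)) (u, 0)) = 0
      rw [h0, zero_add, h4, hu, sub_self, smul_zero]
    rw [h9] at h8
    exact (tendsto_nhds_unique h8 tendsto_const_nhds)
  rw [hsymm, h5] at h1
  refine h1.congr_of_eventuallyEq (Filter.Eventually.of_forall fun r => ?_)
  show fderiv ℝ H (p₀ + r • u, 0) (0, 1) = H' ((p₀, 0) + r • (u, 0)) (0, 1)
  have e1 : ((p₀, (0:ℝ)) + r • ((u, 0) : E × ℝ)) = (p₀ + r • u, 0) := by ext <;> simp
  rw [e1]

lemma dE_double [T2Space P] {c : CD β R} {f : P → ℝ} (F : HF c f) {x : P}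
    (hfix : ∀ t, F.Fl x t = x) {u : E} {t : ℝ} (hu : dE E (fun y => F.Fl y t) x u = u) :
    dE E (fun y => F.Fl y (2 * t)) x u = u := by
  have h1 : (fun y => F.Fl y (2 * t)) = (fun y => F.Fl y t) ∘ fun y => F.Fl y t := by
    ext1 y
    show F.Fl y (2 * t) = F.Fl (F.Fl y t) t
    rw [← F.add, two_mul]
  have h2 : dE E ((fun y => F.Fl y t) ∘ fun y => F.Fl y t) x =
      (dE E (fun y => F.Fl y t) (F.Fl x t)).comp (dE E (fun y => F.Fl y t) x) :=
    mfderiv_comp x ((F.smooth_t t).mdifferentiableAt (by simp))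
      ((F.smooth_t t).mdifferentiableAt (by simp))
  rw [h1, h2, hfix]
  show dE E (fun y => F.Fl y t) x (dE E (fun y => F.Fl y t) x u) = u
  rw [hu, hu]

/-- **Nondegenerate critical points are nondegenerate fixed points** of some time `t` map. -/
lemma exists_ndg [T2Space P] {c : CD β R} {f : P → ℝ} (F : HF c f) {x : P} (hfx : f x = 0)
    (hdf : ∀ v, dForm 𝓘(ℝ, E) f x v = 0)
    (hhess : ∀ u : E, bE β x u = 0 →
      (∀ v, fderiv ℝ (fderiv ℝ (cf x f)) (extChartAt 𝓘(ℝ, E) x x) u v = 0) → u = 0) :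
    ∃ t, Ndg β (fun y => F.Fl y t) x := by
  have hfix : ∀ t, F.Fl x t = x := fixed_of_zero F (X_eq_zero c hfx hdf)
  by_contra hno
  push Not at hno
  let ε : ℕ → ℝ := fun n => (1 / 2 : ℝ) ^ n
  have hε : Tendsto ε atTop (𝓝 0) := tendsto_pow_atTop_nhds_zero_of_lt_one (by norm_num)
    (by norm_num)
  have hε0 : ∀ n, ε n ≠ 0 := fun n => pow_ne_zero _ (by norm_num)
  have h1 : ∀ n, ∃ w : E, ‖w‖ = 1 ∧ bE β x w = 0 ∧ dE E (fun y => F.Fl y (ε n)) x w = w := by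
    intro n
    have h2 := hno (ε n)
    unfold Ndg at h2
    push Not at h2
    obtain ⟨u, hu1, hu2, hu3⟩ := h2
    have hn : ‖u‖ ≠ 0 := norm_ne_zero_iff.2 hu3
    refine ⟨‖u‖⁻¹ • u, ?_, ?_, ?_⟩
    · rw [norm_smul, norm_inv, norm_norm, inv_mul_cancel₀ hn]
    · rw [map_smul, hu1, smul_zero]
    · rw [map_smul, hu2]
  choose w hw1 hw2 hw3 using h1
  have hw4 : ∀ m n, m ≤ n → dE E (fun y => F.Fl y (ε m)) x (w n) = w n := by
    intro m n hmn
    induction hmn using Nat.decreasingInduction with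
    | self => exact hw3 n
    | of_succ k hk ih =>
      have h2 := dE_double F hfix ih
      have h3 : 2 * ε (k + 1) = ε k := by
        show 2 * (1 / 2 : ℝ) ^ (k + 1) = (1 / 2 : ℝ) ^ k
        rw [pow_succ]; ring
      rw [h3] at h2
      exact h2
  obtain ⟨w₀, hw₀, φ, hφ, hlim⟩ := (isCompact_sphere (0:E) 1).tendsto_subseq
    (x := w) (fun n => by simp [hw1])
  have hw₀1 : ‖w₀‖ = 1 := by simpa using hw₀
  have hw₀2 : bE β x w₀ = 0 := by
    have h2 : Tendsto (fun n => bE β x (w (φ n))) atTop (𝓝 (bE β x w₀)) :=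
      ((bE β x).continuous.tendsto w₀).comp hlim
    have h3 : (fun n => bE β x (w (φ n))) = fun _ => 0 := by ext1 n; exact hw2 _
    rw [h3] at h2
    exact (tendsto_nhds_unique h2 tendsto_const_nhds)
  have hw₀3 : ∀ m, dE E (fun y => F.Fl y (ε m)) x w₀ = w₀ := by
    intro m
    have h2 : Tendsto (fun n => dE E (fun y => F.Fl y (ε m)) x (w (φ n))) atTop
        (𝓝 (dE E (fun y => F.Fl y (ε m)) x w₀)) :=
      ((dE E (fun y => F.Fl y (ε m)) x).continuous.tendsto w₀).comp hlim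
    have h3 : Tendsto (fun n => dE E (fun y => F.Fl y (ε m)) x (w (φ n))) atTop (𝓝 w₀) := by
      refine hlim.congr' ?_
      filter_upwards [eventually_ge_atTop m] with n hn
      exact (hw4 m (φ n) (hn.trans (hφ.id_le n))).symm
    exact tendsto_nhds_unique h2 h3
  have h5 := rc_deriv_zero F hfix hε hε0 hw₀3
  have h6 := hhess w₀ hw₀2 (fun v => hess_eq_zero F hfx hdf h5 v)
  rw [h6, norm_zero] at hw₀1
  exact zero_ne_one hw₀1

/-- **Closed orbits from nondegenerate critical points of first integrals.** -/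
theorem exists_period_crit [T2Space P] [CompactSpace P] (c : CD β R) {Fl : P → ℝ → P}
    (h : RF β R Fl) {f : P → ℝ} (hf : ContMDiff 𝓘(ℝ, E) 𝓘(ℝ, ℝ) ∞ f)
    (hfR : ∀ x, dForm 𝓘(ℝ, E) f x (R x) = 0) {x : P}
    (hdf : ∀ v, dForm 𝓘(ℝ, E) f x v = 0)
    (hhess : ∀ u : E, bE β x u = 0 →
      (∀ v, fderiv ℝ (fderiv ℝ (cf x f)) (extChartAt 𝓘(ℝ, E) x x) u v = 0) → u = 0) :
    ∃ T : ℝ, 0 < T ∧ ∀ t, Fl x (t + T) = Fl x t := by
  let f₀ : P → ℝ := fun y => f y + (- f x)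
  have hf₀ : ContMDiff 𝓘(ℝ, E) 𝓘(ℝ, ℝ) ∞ f₀ := hf.add contMDiff_const
  have hd : ∀ (y : P) (v : TangentSpace 𝓘(ℝ, E) y),
      dForm 𝓘(ℝ, E) f₀ y v = dForm 𝓘(ℝ, E) f y v := by
    intro y v
    have h1 := CD.dForm_add hf
      (show ContMDiff 𝓘(ℝ, E) 𝓘(ℝ, ℝ) ∞ (fun _ : P => - f x) from contMDiff_const) y v
    have h2 : dForm 𝓘(ℝ, E) (fun _ : P => - f x) y v = 0 := by
      show mfderiv 𝓘(ℝ, E) 𝓘(ℝ, ℝ) (fun _ : P => - f x) y v = 0
      rw [mfderiv_const]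
      rfl
    rw [h2, add_zero] at h1
    exact h1
  obtain ⟨F⟩ := exists_hf c hf₀ (fun y => by rw [hd]; exact hfR y)
  have hcf : fderiv ℝ (cf (E := E) x f₀) = fderiv ℝ (cf (E := E) x f) := by
    ext1 q
    show fderiv ℝ (fun q => cf (E := E) x f q + (- f x)) q = _
    rw [fderiv_add_const]
  have h0 : f₀ x = 0 := add_neg_cancel _
  have hd0 : ∀ v : TangentSpace 𝓘(ℝ, E) x, dForm 𝓘(ℝ, E) f₀ x v = 0 :=
    fun v => (hd x v).trans (hdf v)
  obtain ⟨t, ht⟩ := exists_ndg F (x := x) h0 hd0 (by rw [hcf]; exact hhess)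
  have hfix : F.Fl x t = x := fixed_of_zero F (X_eq_zero c h0 hd0) t
  exact exists_period c (F.smooth_t t) (F.strict t) h hfix ht

end Pool.Agent.X167.W
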