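import Mathlib
import Pool.Agent.W671.WU11
import Pool.Agent.X167.W.Crit

/-! First integrals of Reeb flows with a nondegenerate critical point. -/

open scoped Topology ContDiff Manifold
open Set Pool.Agent.Helper186

noncomputable section

namespace Pool.Agent.X167.W

set_option linter.unusedSectionVars false

universe u

open Pool.Agent.H826R2 Pool.Agent.H826R2.WStmt Pool.Agent.W671.RStmt Pool.Agent.W671

/-- the Hessian of `f` at `x`, computed in the preferred chart at `x` (its value at a critical point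
of `f` does not depend on the chart) -/
def hess {E : Type*} [NormedAddCommGroup E] [NormedSpace ℝ E]
    {M : Type*} [TopologicalSpace M] [ChartedSpace E M] (f : M → ℝ) (x : M) (u v : E) : ℝ :=
  fderiv ℝ (fderiv ℝ (fun p => f ((extChartAt 𝓘(ℝ, E) x).symm p))) (extChartAt 𝓘(ℝ, E) x x) u v

variable {E : Type u} [NormedAddCommGroup E] [NormedSpace ℝ E] [FiniteDimensional ℝ E]
  {M : Type*} [TopologicalSpace M] [ChartedSpace E M] [IsManifold 𝓘(ℝ, E) ∞ M]

theorem exists_periodic_of_crit [T2Space M] [CompactSpace M]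
    (α : M → Cov E) (hα : WStmt.IsContact α) (R : M → E) (hR : WStmt.IsReeb α R)
    (f : M → ℝ) (hf : ContMDiff 𝓘(ℝ, E) 𝓘(ℝ, ℝ) ∞ f)
    (hfR : ∀ y, D (E := E) (E' := ℝ) f y (R y) = 0)
    (x : M) (hcrit : ∀ u : E, D (E := E) (E' := ℝ) f x u = 0)
    (hhess : ∀ u : E, ev (α x) u = 0 → (∀ v : E, hess f x u v = 0) → u = 0) :
    ∃ (γ : ℝ → M) (T : ℝ), IsPeriodicOrbit R γ T ∧ γ 0 = x := by
  have : IsManifold 𝓘(ℝ, E) 1 M := IsManifold.of_le (n := ∞) (by simp)
  have c : Wein.CD (toForm α) (fun x => (R x : TangentSpace 𝓘(ℝ, E) x)) := ⟨hα.toWein, hR.toWein⟩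
  choose Fl hF0 hF using fun x : M => Wein.complete_of_compact (WU.smooth_reeb c) isCompact_univ
    (fun y hy => absurd (mem_univ y) hy) x
  have hRF := WU.RF.of c hF0 hF
  obtain ⟨T, hT, hper⟩ := exists_period_crit c hRF hf hfR (x := x) hcrit hhess
  exact ⟨Fl x, T, ⟨hT, hF x, hper⟩, hF0 x⟩

end Pool.Agent.X167.W
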