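import Mathlib
import Pool.Agent.X167.W.Surf

/-! Compositions `F (x, G y)` with an arbitrary first factor. -/

open scoped Topology ContDiff Manifold
open Set Filter

noncomputable section

namespace Pool.Agent.X167.W

universe u

/-- the differential of `- G` -/
lemma d_neg {T : Sys.{u}} {G : T.M → ℝ} (hG : T.Smooth G) (y : T.M) :
    T.d (fun y => - G y) y = - T.d G y := by
  have h1 : HasMFDerivAt 𝓘(ℝ, T.E) 𝓘(ℝ, ℝ) (fun y => - G y) y (- T.d G y : T.E →L[ℝ] ℝ) :=
    (Sys.hasD hG y).neg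
  exact h1.mfderiv

/-- the reflection `(x, g) ↦ (x, - g)` -/
lemma smooth_reflect {S : Sys.{u}} {F : S.M × ℝ → ℝ} (hF : S.Smooth2 F) :
    S.Smooth2 (fun p => F (p.1, - p.2)) :=
  ContMDiff.comp hF (contMDiff_fst.prodMk (contMDiff_snd.neg))

lemma smooth_neg {T : Sys.{u}} {G : T.M → ℝ} (hG : T.Smooth G) : T.Smooth (fun y => - G y) :=
  ContMDiff.neg hG

/-- At a minimum of `G` on a level set of `F (x, G y)` the first variable is critical or the second
one is. -/
lemma critical_of_min {S T : Sys.{u}} {F : S.M × ℝ → ℝ}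
    (hF : S.Smooth2 F) {G : T.M → ℝ} (hG : T.Smooth G)
    {c : ℝ} {x : S.M} {y : T.M} (hxy : F (x, G y) = c)
    (hmin : ∀ (x' : S.M) (y' : T.M), F (x', G y') = c → G y ≤ G y') (hy : T.d G y ≠ 0) :
    S.d (fun x => F (x, G y)) x = 0 := by
  have h := critical_of_max (F := fun p => F (p.1, - p.2)) (smooth_reflect hF) (smooth_neg hG)
    (c := c) (x := x) (y := y) (by simpa using hxy)
    (fun x' y' h => by
      have := hmin x' y' (by simpa using h)
      linarith)
    (by rw [d_neg hG]; simpa using hy)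
  simpa using h

/-- At a maximum of `G` on a regular level set of `F (x, G y)` the point `y` is not a critical point of
`G`, unless it is a local maximum of `G`. -/
lemma local_of_max {S T : Sys.{u}} {F : S.M × ℝ → ℝ}
    (hF : S.Smooth2 F) {G : T.M → ℝ} (hG : T.Smooth G)
    {c : ℝ} {x : S.M} {y : T.M} (hxy : F (x, G y) = c)
    (hmax : ∀ (x' : S.M) (y' : T.M), F (x', G y') = c → G y' ≤ G y)
    (hx : S.d (fun x => F (x, G y)) x ≠ 0) : IsLocalMax G y := by
  have : LocallyConnectedSpace S.M := ChartedSpace.locallyConnectedSpace S.E S.M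
  obtain ⟨U, ⟨hUo, hxU, hUc⟩, -⟩ := (LocallyConnectedSpace.open_connected_basis x).mem_iff.1
    (Filter.univ_mem : (univ : Set S.M) ∈ 𝓝 x)
  have hU : U ∈ 𝓝 x := hUo.mem_nhds hxU
  obtain ⟨a, haU, ha⟩ := Sys.exists_gt hx hU
  obtain ⟨b, hbU, hb⟩ := Sys.exists_lt hx hU
  simp only [hxy] at ha hb
  have hFc : Continuous F := ContMDiff.continuous hF
  have hGc : Continuous G := ContMDiff.continuous hG
  have h1 : ∀ᶠ y' in 𝓝 y, c < F (a, G y') := by
    have : ContinuousAt (fun y' => F (a, G y')) y := by fun_prop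
    exact this.eventually (lt_mem_nhds ha)
  have h2 : ∀ᶠ y' in 𝓝 y, F (b, G y') < c := by
    have : ContinuousAt (fun y' => F (b, G y')) y := by fun_prop
    exact this.eventually (gt_mem_nhds hb)
  filter_upwards [h1, h2] with y' hy1 hy2
  have hcont : ContinuousOn (fun x' => F (x', G y')) U := by fun_prop
  obtain ⟨x', -, hx'⟩ := hUc.isPreconnected.intermediate_value hbU haU hcont ⟨hy2.le, hy1.le⟩
  exact hmax x' y' hx'

/-- **Composition with an arbitrary first factor.** -/
theorem closes_stab_max {S T : Sys.{u}} {F : S.M × ℝ → ℝ} (hF : S.Smooth2 F) {G : T.M → ℝ}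
    (hG : T.Smooth G) (hno : ∀ y, ¬ IsLocalMax G y) {c : ℝ}
    (hne : ∃ p : S.M × T.M, F (p.1, G p.2) = c)
    (hcpt : IsCompact {p : S.M × T.M | F (p.1, G p.2) = c})
    (hreg : ∀ p : S.M × T.M, F (p.1, G p.2) = c →
      (S.prod T).d (fun p => F (p.1, G p.2)) p ≠ 0) :
    ∃ (x : S.M) (y : T.M), F (x, G y) = c ∧ T.d G y ≠ 0 ∧ S.d (fun x => F (x, G y)) x = 0 := by
  have hFc : Continuous F := ContMDiff.continuous hF
  have hGc : Continuous G := ContMDiff.continuous hG
  obtain ⟨⟨x, y⟩, hxy, hmax⟩ := hcpt.exists_isMaxOn hne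
    (f := fun p : S.M × T.M => G p.2) (by fun_prop)
  have hxy' : F (x, G y) = c := hxy
  have hmax' : ∀ (x' : S.M) (y' : T.M), F (x', G y') = c → G y' ≤ G y :=
    fun x' y' h => hmax (show (x', y') ∈ {p : S.M × T.M | F (p.1, G p.2) = c} from h)
  have hx0 : S.d (fun x => F (x, G y)) x = 0 := by
    by_contra hx
    exact hno y (local_of_max hF hG hxy' hmax' hx)
  refine ⟨x, y, hxy', fun hy => ?_, hx0⟩
  apply hreg (x, y) hxy'
  ext ⟨a, b⟩
  rw [d_comp hF hG, hx0, hy]
  simp

/-- The periodic orbit over a critical point of the first factor. -/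
theorem closes_at {S T : Sys.{u}} {F : S.M × ℝ → ℝ}
    (hF : S.Smooth2 F) {G : T.M → ℝ} (hG : T.Smooth G) (h2 : T.Closes G)
    {c : ℝ} (hcpt : IsCompact {p : S.M × T.M | F (p.1, G p.2) = c})
    (hreg : ∀ p : S.M × T.M, F (p.1, G p.2) = c →
      (S.prod T).d (fun p => F (p.1, G p.2)) p ≠ 0)
    {x : S.M} {y : T.M} (hxy' : F (x, G y) = c) (hx0 : S.d (fun x => F (x, G y)) x = 0) :
    ∃ (γ : ℝ → (S.prod T).M) (T' : ℝ),
      (S.prod T).IsPeriodic (fun p => F (p.1, G p.2)) γ T' ∧ ∀ t, F ((γ t).1, G (γ t).2) = c := by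
  have hFc : Continuous F := ContMDiff.continuous hF
  have hGc : Continuous G := ContMDiff.continuous hG
  let L0 : Set (S.M × T.M) := {p | F (p.1, G p.2) = c}
  have hL0 : IsCompact L0 := hcpt
  have hreg' : ∀ (x' : S.M) (y' : T.M), F (x', G y') = c → S.d (fun x => F (x, G y')) x' = 0 →
      DF F (x', G y') (0, 1) ≠ 0 ∧ T.d G y' ≠ 0 := by
    intro x' y' h h0
    have h3 := hreg (x', y') h
    constructor
    · intro h4
      apply h3
      ext ⟨a, b⟩
      rw [d_comp hF hG, h0, h4]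
      simp
    · intro h4
      apply h3
      ext ⟨a, b⟩
      rw [d_comp hF hG, h0, h4]
      simp
  obtain ⟨hκ, -⟩ := hreg' x y hxy' hx0
  set κ := DF F (x, G y) (0, 1) with hκdef
  have hc2 : IsCompact {y' | G y' = G y} := by
    have h3 : {y' | G y' = G y} = Prod.snd '' (L0 ∩ {p | p.1 = x ∧ G p.2 = G y}) := by
      ext y'
      constructor
      · intro h
        have h' : G y' = G y := h
        exact ⟨(x, y'), ⟨show F (x, G y') = c by rw [h']; exact hxy', rfl, h⟩, rfl⟩
      · rintro ⟨⟨x'', y''⟩, ⟨-, -, h⟩, rfl⟩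
        exact h
    rw [h3]
    refine (hL0.inter_right ?_).image continuous_snd
    exact (isClosed_singleton.preimage continuous_fst).inter
      (isClosed_eq (by fun_prop) continuous_const)
  obtain ⟨γ, T0, hγ, hval⟩ := h2 (G y) ⟨y, rfl⟩ hc2 (fun y' hy' => by
    have h3 : F (x, G y') = c := by rw [hy']; exact hxy'
    exact (hreg' x y' h3 (by rw [hy']; exact hx0)).2)
  refine ⟨fun t => (x, γ (κ * t)), T0 / |κ|, ⟨div_pos hγ.pos (abs_pos.2 hκ), fun t => ?_,
    fun t => ?_⟩, fun t => ?_⟩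
  · show (x, γ (κ * (t + T0 / |κ|))) = (x, γ (κ * t))
    congr 1
    rcases lt_or_gt_of_ne hκ with h | h
    · have e : κ * (t + T0 / |κ|) = κ * t - T0 := by
        rw [abs_of_neg h]; field_simp; ring
      rw [e]
      have := hγ.period (κ * t - T0)
      rw [sub_add_cancel] at this
      exact this.symm
    · have e : κ * (t + T0 / |κ|) = κ * t + T0 := by
        rw [abs_of_pos h]; field_simp
      rw [e]
      exact hγ.period _
  · obtain ⟨X, hX, hX'⟩ := hγ.orbit (κ * t)
    refine ⟨(0, κ • X), ?_, ?_⟩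
    · have h3 : HasMFDerivAt 𝓘(ℝ, ℝ) 𝓘(ℝ, ℝ) (fun t : ℝ => κ * t) t
          ((1 : ℝ →L[ℝ] ℝ).smulRight κ) := by
        have h4 : HasDerivAt (fun t : ℝ => κ * t) κ t := by
          simpa using (hasDerivAt_id t).const_mul κ
        exact h4.hasFDerivAt.hasMFDerivAt
      have h4 : HasMFDerivAt 𝓘(ℝ, ℝ) 𝓘(ℝ, T.E) (fun t => γ (κ * t)) t
          ((1 : ℝ →L[ℝ] ℝ).smulRight (κ • X)) := by
        have h5 := HasMFDerivAt.comp t hX h3
        refine h5.congr_mfderiv ?_
        refine ContinuousLinearMap.ext fun (r : ℝ) => ?_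
        show (r * κ) • X = r • (κ • X)
        rw [mul_smul]
      have h5 : HasMFDerivAt 𝓘(ℝ, ℝ) (𝓘(ℝ, S.E).prod 𝓘(ℝ, T.E)) (fun t => (x, γ (κ * t))) t
          ((0 : ℝ →L[ℝ] S.E).prod ((1 : ℝ →L[ℝ] ℝ).smulRight (κ • X))) :=
        (hasMFDerivAt_const x t).prodMk h4
      have h6 : ((0 : ℝ →L[ℝ] S.E).prod ((1 : ℝ →L[ℝ] ℝ).smulRight (κ • X))) =
          (1 : ℝ →L[ℝ] ℝ).smulRight ((0, κ • X) : S.E × T.E) := by
        ext <;> simp
      rw [h6] at h5
      exact h5
    · rintro ⟨a, b⟩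
      have hv : G (γ (κ * t)) = G y := hval _
      have hX2 : T.form (γ (κ * t)) X b = - T.d G (γ (κ * t)) b := hX' b
      show (S.prod T).form (x, γ (κ * t)) (0, κ • X) (a, b) =
        - (S.prod T).d (fun p => F (p.1, G p.2)) (x, γ (κ * t)) (a, b)
      rw [prod_form_apply, d_comp hF hG]
      simp only [map_zero, ContinuousLinearMap.zero_apply, zero_add, map_smul,
        ContinuousLinearMap.smul_apply, smul_eq_mul]
      rw [hv, hx0, ← hκdef, hX2]
      simp
  · show F (x, G (γ (κ * t))) = c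
    rw [hval]
    exact hxy'

/-- **Composition with an arbitrary first factor.** -/
theorem closes_stab {S T : Sys.{u}} {F : S.M × ℝ → ℝ} (hF : S.Smooth2 F) {G : T.M → ℝ}
    (hG : T.Smooth G) (h2 : T.Closes G)
    (hno : (∀ y, ¬ IsLocalMax G y) ∨ (∀ y, ¬ IsLocalMin G y)) :
    (S.prod T).Closes (fun p => F (p.1, G p.2)) := by
  intro c hne hcpt hreg
  rcases hno with hno | hno
  · obtain ⟨x, y, hxy, -, hx0⟩ := closes_stab_max hF hG hno hne hcpt hreg
    exact closes_at hF hG h2 hcpt hreg hxy hx0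
  · have e : (fun p : S.M × T.M => F (p.1, - - G p.2)) = fun p => F (p.1, G p.2) := by
      simp only [neg_neg]
    have h1 := closes_stab_max (S := S) (T := T) (F := fun p => F (p.1, - p.2))
      (smooth_reflect hF) (smooth_neg hG) (fun y h => hno y (by
        have := h.neg
        simpa using this)) (c := c)
    simp only [neg_neg] at h1
    obtain ⟨x, y, hxy, -, hx0⟩ := h1 hne hcpt hreg
    exact closes_at hF hG h2 hcpt hreg hxy hx0

end Pool.Agent.X167.W
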